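import Pool.Agent.N513.QM.Defs

/-! Amenability passes to subgroups; groups with a ping-pong pair are not amenable. -/

set_option autoImplicit false

namespace Pool.Agent.N513.QM

theorem amenable_of_injective {F G : Type} [Group F] [Group G] (ρ : F →* G)
    (hρ : Function.Injective ρ) (h : IsAmenable G) : IsAmenable F := by
  obtain ⟨m, m0, m1, m2, m3⟩ := h
  have hq : ∀ p : G, ∃ f : F,
      ρ f = p * (Quotient.out (Quotient.mk (QuotientGroup.rightRel ρ.range) p))⁻¹ := by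
    intro p
    have := Quotient.exact (Quotient.out_eq (Quotient.mk (QuotientGroup.rightRel ρ.range) p))
    exact QuotientGroup.rightRel_apply.1 this
  choose r hr using hq
  have hrg : ∀ (f : F) (p : G), r (ρ f * p) = f * r p := by
    intro f p
    apply hρ
    have : Quotient.mk (QuotientGroup.rightRel ρ.range) (ρ f * p) =
        Quotient.mk (QuotientGroup.rightRel ρ.range) p := by
      refine Quotient.sound (QuotientGroup.rightRel_apply.2 ?_)
      rw [mul_inv_rev, ← mul_assoc, mul_inv_cancel, one_mul]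
      exact inv_mem ⟨f, rfl⟩
    rw [hr, this, map_mul, hr, mul_assoc]
  refine ⟨fun A => m (r ⁻¹' A), fun A => m0 _, by simpa using m1, ?_, ?_⟩
  · intro A B h
    exact m2 _ _ (h.preimage r)
  · intro f A
    show m (r ⁻¹' ((fun x => f * x) '' A)) = m (r ⁻¹' A)
    rw [← m3 (ρ f) (r ⁻¹' A)]
    congr 1
    ext p
    constructor
    · rintro ⟨x, hx, hxp⟩
      refine ⟨(ρ f)⁻¹ * p, ?_, by group⟩
      show r ((ρ f)⁻¹ * p) ∈ A
      have h1 := hrg f⁻¹ p
      rw [map_inv] at h1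
      have hxp' : f * x = r p := hxp
      rw [h1, ← hxp', inv_mul_cancel_left]
      exact hx
    · rintro ⟨x, hx, rfl⟩
      exact ⟨r x, hx, (hrg f x).symm⟩

theorem mean_mono {G : Type} {m : Set G → ℝ} (m0 : ∀ A, 0 ≤ m A)
    (m2 : ∀ A B, Disjoint A B → m (A ∪ B) = m A + m B) {A B : Set G} (h : A ⊆ B) :
    m A ≤ m B := by
  have h1 := m2 A (B \ A) Set.disjoint_sdiff_right
  rw [Set.union_sdiff_cancel h] at h1
  have := m0 (B \ A)
  linarith

theorem not_amenable_of_pingpong {F : Type} [Group F] {Y : Type} [MulAction F Y] (y₀ : Y)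
    (a b : F) (A₁ A₂ B₁ B₂ : Set Y) (h1 : Disjoint A₁ A₂) (h2 : Disjoint B₁ B₂)
    (h3 : Disjoint (A₁ ∪ A₂) (B₁ ∪ B₂)) (ha : ∀ y, y ∉ A₂ → a • y ∈ A₁)
    (hb : ∀ y, y ∉ B₂ → b • y ∈ B₁) : ¬ IsAmenable F := by
  rintro ⟨m, m0, m1, m2, m3⟩
  let P : Set Y → Set F := fun S => {g | g • y₀ ∈ S}
  have key : ∀ (c : F) (C₁ C₂ : Set Y), (∀ y, y ∉ C₂ → c • y ∈ C₁) → 1 ≤ m (P C₁) + m (P C₂) := by
    intro c C₁ C₂ hc
    have e1 : m (P C₂ᶜ) ≤ m (P C₁) := by
      rw [← m3 c (P C₂ᶜ)]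
      refine mean_mono m0 m2 ?_
      rintro _ ⟨g, hg, rfl⟩
      show (c * g) • y₀ ∈ C₁
      rw [mul_smul]
      exact hc _ hg
    have e2 : m (P C₂ ∪ P C₂ᶜ) = m (P C₂) + m (P C₂ᶜ) :=
      m2 _ _ (disjoint_compl_right.preimage (fun g : F => g • y₀))
    have e3 : P C₂ ∪ P C₂ᶜ = Set.univ := by
      ext g
      exact ⟨fun _ => trivial, fun _ => em _⟩
    rw [e3, m1] at e2
    linarith
  have ka := key a A₁ A₂ ha
  have kb := key b B₁ B₂ hb
  have e1 : m (P A₁ ∪ P A₂) = m (P A₁) + m (P A₂) := m2 _ _ (h1.preimage (fun g : F => g • y₀))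
  have e2 : m (P B₁ ∪ P B₂) = m (P B₁) + m (P B₂) := m2 _ _ (h2.preimage (fun g : F => g • y₀))
  have e3 : m ((P A₁ ∪ P A₂) ∪ (P B₁ ∪ P B₂)) = m (P A₁ ∪ P A₂) + m (P B₁ ∪ P B₂) :=
    m2 _ _ (h3.preimage (fun g : F => g • y₀))
  have e4 := mean_mono m0 m2 (Set.subset_univ ((P A₁ ∪ P A₂) ∪ (P B₁ ∪ P B₂)))
  rw [m1] at e4
  linarith

end Pool.Agent.N513.QM
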