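import Pool.Agent.N513.QM.Line

/-! Blowing up the rational points of `(-1, 1)`: the group `Supp` acts on the line preserving a
Cantor set. -/

set_option autoImplicit false

open Set Topology Filter

namespace Pool.Agent.N513.QM

/-- The rational points of `(-1, 1)`. -/
def DD : Set ℝ := {y | IsRat y ∧ |y| < 1}

theorem DD_countable : DD.Countable :=
  (Set.countable_range (fun q : ℚ => (q : ℝ))).mono fun _ hy => hy.1

theorem exists_weight : ∃ w : ℝ → ℝ, (∀ y, 0 ≤ w y) ∧ (∀ y, y ∈ DD → 0 < w y) ∧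
    (∀ y, y ∉ DD → w y = 0) ∧ Summable w := by
  classical
  let _ : Encodable DD := DD_countable.toEncodable
  refine ⟨fun y => if h : y ∈ DD then (1 / 2) ^ Encodable.encode (⟨y, h⟩ : DD) else 0, ?_, ?_, ?_,
    ?_⟩
  · intro y
    dsimp only
    split_ifs
    · positivity
    · exact le_rfl
  · intro y hy
    dsimp only
    rw [dif_pos hy]; positivity
  · intro y hy
    exact dif_neg hy
  · rw [← Function.Injective.summable_iff (g := ((↑) : DD → ℝ)) Subtype.val_injective]
    · convert summable_geometric_two_encode (ι := DD) using 1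
      funext y
      exact dif_pos y.2
    · intro x hx
      refine dif_neg fun h => hx ⟨⟨x, h⟩, rfl⟩

/-- Summable weights, positive exactly on `DD`. -/
noncomputable def wt : ℝ → ℝ := exists_weight.choose

theorem wt_nonneg (y : ℝ) : 0 ≤ wt y := exists_weight.choose_spec.1 y

theorem wt_pos {y : ℝ} (hy : y ∈ DD) : 0 < wt y := exists_weight.choose_spec.2.1 y hy

theorem wt_zero {y : ℝ} (hy : y ∉ DD) : wt y = 0 := exists_weight.choose_spec.2.2.1 y hy

theorem wt_summable : Summable wt := exists_weight.choose_spec.2.2.2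

/-- The total weight of the points less than `y`. -/
noncomputable def FF (y : ℝ) : ℝ := ∑' q, (Iio y).indicator wt q

theorem ind_summable (A : Set ℝ) : Summable (A.indicator wt) := wt_summable.indicator A

theorem ind_nonneg (A : Set ℝ) (q : ℝ) : 0 ≤ A.indicator wt q :=
  Set.indicator_nonneg (fun q _ => wt_nonneg q) q

theorem FF_add_wt_le {y y' : ℝ} (h : y < y') : FF y + wt y ≤ FF y' := by
  have h1 : ∑' q, ((Iio y).indicator wt q + ({y} : Set ℝ).indicator wt q) = FF y + wt y := by
    rw [Summable.tsum_add (ind_summable _) (ind_summable _)]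
    congr 1
    rw [tsum_eq_single y]
    · simp
    · intro b hb
      simp [hb]
  rw [← h1]
  refine Summable.tsum_le_tsum (fun q => ?_) ((ind_summable _).add (ind_summable _))
    (ind_summable _)
  by_cases hq : q < y
  · rw [indicator_of_mem (show q ∈ Iio y from hq),
      indicator_of_mem (show q ∈ Iio y' from hq.trans h), indicator_of_notMem (by simpa using hq.ne)]
    simp
  · rw [indicator_of_notMem (show q ∉ Iio y from hq)]
    by_cases hq' : q = y
    · subst hq'
      rw [indicator_of_mem (show q ∈ Iio y' from h)]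
      simp
    · rw [indicator_of_notMem (by simpa using hq')]
      simpa using ind_nonneg _ _

theorem FF_nonneg (y : ℝ) : 0 ≤ FF y := tsum_nonneg (ind_nonneg _)

theorem FF_le (y : ℝ) : FF y ≤ ∑' q, wt q := by
  refine Summable.tsum_le_tsum (fun q => ?_) (ind_summable _) wt_summable
  exact Set.indicator_le_self' (fun q _ => wt_nonneg q) q

/-- The blown-up coordinate. -/
noncomputable def J (y s : ℝ) : ℝ := y + FF y + s * wt y

theorem J_zero (y : ℝ) : J y 0 = y + FF y := by unfold J; ring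

theorem J_lt {y y' s s' : ℝ} (h : y < y') (hs : s ≤ 1) (hs' : 0 ≤ s') : J y s < J y' s' := by
  unfold J
  have h1 := FF_add_wt_le h
  have h2 : s * wt y ≤ wt y := mul_le_of_le_one_left (wt_nonneg y) hs
  have h3 : 0 ≤ s' * wt y' := mul_nonneg hs' (wt_nonneg y')
  linarith

theorem left_approx {y z : ℝ} (h : z < J y 0) : ∃ y' < y, z < J y' 0 := by
  classical
  simp only [J_zero] at *
  set ε := y + FF y - z with hε
  have hε0 : 0 < ε := by linarith
  have h1 : HasSum ((Iio y).indicator wt) (FF y) := (ind_summable _).hasSum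
  obtain ⟨s, hs⟩ : ∃ s : Finset ℝ, FF y - ε / 2 < ∑ q ∈ s, (Iio y).indicator wt q := by
    have := (tendsto_order.1 h1).1 (FF y - ε / 2) (by linarith)
    exact this.exists
  have h2 : ∀ᶠ y' in 𝓝[<] y, y - ε / 2 < y' ∧ ∀ q ∈ s, q < y → q < y' := by
    refine Filter.Eventually.and ?_ ?_
    · exact mem_nhdsWithin_of_mem_nhds (Ioi_mem_nhds (by linarith))
    · rw [Finset.eventually_all]
      intro q _
      by_cases hq : q < y
      · filter_upwards [mem_nhdsWithin_of_mem_nhds (Ioi_mem_nhds hq)] with y' hy' _ using hy'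
      · exact Filter.Eventually.of_forall fun _ h => absurd h hq
  obtain ⟨y', ⟨h3, h4⟩, h5⟩ := (h2.and self_mem_nhdsWithin).exists
  refine ⟨y', h5, ?_⟩
  have h6 : ∑ q ∈ s, (Iio y).indicator wt q ≤ FF y' := by
    refine le_trans (Finset.sum_le_sum (fun q hq => ?_))
      (Summable.sum_le_tsum s (fun q _ => ind_nonneg (Iio y') q) (ind_summable _))
    by_cases hqy : q < y
    · rw [indicator_of_mem (show q ∈ Iio y from hqy),
        indicator_of_mem (show q ∈ Iio y' from h4 q hq hqy)]
    · rw [indicator_of_notMem (show q ∉ Iio y from hqy)]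
      exact ind_nonneg _ _
  linarith

theorem right_approx {y z : ℝ} (h : J y 1 < z) : ∃ y' > y, J y' 0 < z := by
  classical
  have hJ : J y 1 = y + FF y + wt y := by unfold J; ring
  rw [hJ] at h
  simp only [J_zero]
  set ε := z - (y + FF y + wt y) with hε
  have hε0 : 0 < ε := by linarith
  set W := ∑' q, wt q with hW
  have h1 : HasSum wt W := wt_summable.hasSum
  obtain ⟨s, hs⟩ : ∃ s : Finset ℝ, W - ε / 2 < ∑ q ∈ s, wt q := by
    have := (tendsto_order.1 h1).1 (W - ε / 2) (by linarith)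
    exact this.exists
  have h2 : ∀ᶠ y' in 𝓝[>] y, y' < y + ε / 2 ∧ ∀ q ∈ s, y < q → y' < q := by
    refine Filter.Eventually.and ?_ ?_
    · exact mem_nhdsWithin_of_mem_nhds (Iio_mem_nhds (by linarith))
    · rw [Finset.eventually_all]
      intro q _
      by_cases hq : y < q
      · filter_upwards [mem_nhdsWithin_of_mem_nhds (Iio_mem_nhds hq)] with y' hy' _ using hy'
      · exact Filter.Eventually.of_forall fun _ h => absurd h hq
  obtain ⟨y', ⟨h3, h4⟩, h5⟩ := (h2.and self_mem_nhdsWithin).exists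
  have h5' : y < y' := h5
  refine ⟨y', h5', ?_⟩
  -- compare sums
  have e1 : ∑' q, (s : Set ℝ).indicator wt q = ∑ q ∈ s, wt q := by
    rw [tsum_eq_sum (s := s)]
    · exact Finset.sum_congr rfl fun q hq => indicator_of_mem (by simpa using hq) _
    · intro q hq
      exact indicator_of_notMem (by simpa using hq) _
  have e2 : ∑' q, ({y} : Set ℝ).indicator wt q = wt y := by
    rw [tsum_eq_single y]
    · simp
    · intro b hb
      simp [hb]
  have h6 : FF y' + ∑ q ∈ s, wt q ≤ W + (FF y + wt y) := by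
    rw [← e1, ← e2]
    unfold FF
    rw [hW, ← Summable.tsum_add (ind_summable _) (ind_summable _),
      ← Summable.tsum_add (ind_summable _) (ind_summable _),
      ← Summable.tsum_add wt_summable ((ind_summable _).add (ind_summable _))]
    refine Summable.tsum_le_tsum (fun q => ?_) ((ind_summable _).add (ind_summable _))
      (wt_summable.add ((ind_summable _).add (ind_summable _)))
    have a1 : (Iio y').indicator wt q ≤ wt q :=
      Set.indicator_le_self' (fun q _ => wt_nonneg q) q
    have a2 : (s : Set ℝ).indicator wt q ≤ wt q :=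
      Set.indicator_le_self' (fun q _ => wt_nonneg q) q
    have a3 := ind_nonneg (Iio y) q
    have a4 := ind_nonneg {y} q
    by_cases hq : q < y'
    · by_cases hqs : q ∈ s
      · have hqy : q ≤ y := by
          by_contra hlt
          push Not at hlt
          exact absurd (h4 q hqs hlt) (not_lt.2 hq.le)
        rcases hqy.lt_or_eq with h7 | h7
        · rw [indicator_of_mem (show q ∈ Iio y from h7)]
          linarith
        · subst h7
          rw [indicator_of_mem (show q ∈ ({q} : Set ℝ) from rfl)]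
          linarith
      · rw [indicator_of_notMem (show q ∉ (s : Set ℝ) from by simpa using hqs)]
        linarith
    · rw [indicator_of_notMem (show q ∉ Iio y' from hq)]
      linarith
  linarith

theorem J_surj (z : ℝ) : ∃ y s : ℝ, 0 ≤ s ∧ s ≤ 1 ∧ (wt y = 0 → s = 0) ∧ J y s = z := by
  set Y : Set ℝ := {y | J y 0 ≤ z} with hY
  have hne : Y.Nonempty := by
    refine ⟨z - ∑' q, wt q, ?_⟩
    have := FF_le (z - ∑' q, wt q)
    show J _ 0 ≤ z
    rw [J_zero]; linarith
  have hbdd : BddAbove Y := by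
    refine ⟨z, fun y hy => ?_⟩
    have h1 : J y 0 ≤ z := hy
    rw [J_zero] at h1
    have := FF_nonneg y
    linarith
  set y := sSup Y with hy
  have h1 : J y 0 ≤ z := by
    by_contra hlt
    push Not at hlt
    obtain ⟨y', hy', h2⟩ := left_approx hlt
    have h3 : y ≤ y' := by
      refine csSup_le hne fun x hx => ?_
      by_contra hlt'
      push Not at hlt'
      have h4 := J_lt (s := 0) (s' := 0) hlt' zero_le_one le_rfl
      have h5 : J x 0 ≤ z := hx
      linarith
    linarith
  have h2 : z ≤ J y 1 := by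
    by_contra hlt
    push Not at hlt
    obtain ⟨y', hy', h3⟩ := right_approx hlt
    have h4 : y' ≤ y := le_csSup hbdd (show J y' 0 ≤ z from h3.le)
    linarith
  have e0 : J y 0 = y + FF y := J_zero y
  have e1 : J y 1 = y + FF y + wt y := by unfold J; ring
  by_cases hw : wt y = 0
  · refine ⟨y, 0, le_rfl, zero_le_one, fun _ => rfl, ?_⟩
    rw [hw] at e1
    linarith
  · have hw' : 0 < wt y := lt_of_le_of_ne (wt_nonneg y) (Ne.symm hw)
    refine ⟨y, (z - (y + FF y)) / wt y, ?_, ?_, fun h => absurd h hw, ?_⟩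
    · exact div_nonneg (by linarith) hw'.le
    · rw [div_le_one hw']; linarith
    · unfold J
      rw [div_mul_cancel₀ _ hw]; ring

/-- The first coordinate. -/
noncomputable def PP (x : ℝ) : ℝ := (J_surj x).choose

/-- The second coordinate. -/
noncomputable def ss (x : ℝ) : ℝ := (J_surj x).choose_spec.choose

theorem ss_spec (x : ℝ) : 0 ≤ ss x ∧ ss x ≤ 1 ∧ (wt (PP x) = 0 → ss x = 0) ∧ J (PP x) (ss x) = x :=
  (J_surj x).choose_spec.choose_spec

theorem J_inj {y s y' s' : ℝ} (hs : 0 ≤ s) (hs1 : s ≤ 1) (hw : wt y = 0 → s = 0) (hs' : 0 ≤ s')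
    (hs1' : s' ≤ 1) (hw' : wt y' = 0 → s' = 0) (h : J y s = J y' s') : y = y' ∧ s = s' := by
  have h1 : y = y' := by
    rcases lt_trichotomy y y' with h2 | h2 | h2
    · have := J_lt h2 hs1 hs'; linarith
    · exact h2
    · have := J_lt h2 hs1' hs; linarith
  subst h1
  refine ⟨rfl, ?_⟩
  by_cases h3 : wt y = 0
  · rw [hw h3, hw' h3]
  · unfold J at h
    have h4 : s * wt y = s' * wt y := by linarith
    exact mul_right_cancel₀ h3 h4

theorem PP_J {y s : ℝ} (hs : 0 ≤ s) (hs1 : s ≤ 1) (hw : wt y = 0 → s = 0) :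
    PP (J y s) = y ∧ ss (J y s) = s := by
  obtain ⟨h1, h2, h3, h4⟩ := ss_spec (J y s)
  exact J_inj h1 h2 h3 hs hs1 hw h4

theorem lt_iff_coord {x x' : ℝ} : x < x' ↔ PP x < PP x' ∨ (PP x = PP x' ∧ ss x < ss x') := by
  obtain ⟨h1, h2, h3, h4⟩ := ss_spec x
  obtain ⟨h1', h2', h3', h4'⟩ := ss_spec x'
  constructor
  · intro h
    rcases lt_trichotomy (PP x) (PP x') with h5 | h5 | h5
    · exact Or.inl h5
    · refine Or.inr ⟨h5, ?_⟩
      by_contra h6
      push Not at h6
      rw [← h4, ← h4', h5] at h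
      unfold J at h
      have := mul_le_mul_of_nonneg_right h6 (wt_nonneg (PP x'))
      linarith
    · have := J_lt h5 h2' h1
      rw [h4, h4'] at this
      linarith
  · rintro (h | ⟨h, h5⟩)
    · have := J_lt h h2 h1'
      rwa [h4, h4'] at this
    · rw [← h4, ← h4', ← h]
      unfold J
      have hw : wt (PP x) ≠ 0 := by
        intro h0
        rw [h3 h0, h3' (h ▸ h0)] at h5
        exact lt_irrefl _ h5
      have hw' : 0 < wt (PP x) := lt_of_le_of_ne (wt_nonneg _) (Ne.symm hw)
      have := mul_lt_mul_of_pos_right h5 hw'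
      linarith

theorem abs_lt_of_supp {g : OA} (hg : g ∈ Supp) {y : ℝ} : |g y| < 1 ↔ |y| < 1 := by
  constructor
  · intro h
    by_contra h1
    push Not at h1
    rw [hg.2 y h1] at h
    linarith
  · intro h
    by_contra h1
    push Not at h1
    have h2 := hg.2 _ h1
    have h3 := g.injective h2
    rw [h3] at h1
    linarith

theorem mem_DD_iff {g : OA} (hg : g ∈ Supp) {y : ℝ} : g y ∈ DD ↔ y ∈ DD := by
  unfold DD
  exact and_congr (hg.1 y) (abs_lt_of_supp hg)

theorem wt_iff {g : OA} (hg : g ∈ Supp) {y : ℝ} : wt (g y) = 0 ↔ wt y = 0 := by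
  constructor
  · intro h
    by_contra h1
    have h2 : y ∈ DD := by
      by_contra h3; exact h1 (wt_zero h3)
    have := wt_pos ((mem_DD_iff hg).2 h2)
    linarith
  · intro h
    by_contra h1
    have h2 : g y ∈ DD := by
      by_contra h3; exact h1 (wt_zero h3)
    have := wt_pos ((mem_DD_iff hg).1 h2)
    linarith

/-- The action on the blown-up line. -/
noncomputable def Bf (g : OA) (x : ℝ) : ℝ := J (g (PP x)) (ss x)

theorem Bf_coord {g : OA} (hg : g ∈ Supp) (x : ℝ) :
    PP (Bf g x) = g (PP x) ∧ ss (Bf g x) = ss x := by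
  obtain ⟨h1, h2, h3, h4⟩ := ss_spec x
  exact PP_J h1 h2 fun h => h3 ((wt_iff hg).1 h)

theorem Bf_mul {g h : OA} (hh : h ∈ Supp) (x : ℝ) : Bf (g * h) x = Bf g (Bf h x) := by
  obtain ⟨h1, h2⟩ := Bf_coord hh x
  show J ((g * h) (PP x)) (ss x) = J (g (PP (Bf h x))) (ss (Bf h x))
  rw [h1, h2]; rfl

theorem Bf_one (x : ℝ) : Bf 1 x = x := (ss_spec x).2.2.2

theorem Bf_strictMono {g : OA} (hg : g ∈ Supp) : StrictMono (Bf g) := by
  intro x y h
  rw [lt_iff_coord] at h ⊢
  obtain ⟨h1, h2⟩ := Bf_coord hg x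
  obtain ⟨h3, h4⟩ := Bf_coord hg y
  rw [h1, h2, h3, h4]
  rcases h with h | ⟨h, h'⟩
  · exact Or.inl (g.strictMono h)
  · exact Or.inr ⟨by rw [h], h'⟩

/-- The homomorphism from `Supp` to the group of order automorphisms of the blown-up line. -/
noncomputable def BB : Supp →* OA where
  toFun g :=
    { toFun := Bf g
      invFun := Bf (g⁻¹ : Supp)
      left_inv := fun x => by
        rw [← Bf_mul g.2, ← Subgroup.coe_mul, inv_mul_cancel]; exact Bf_one x
      right_inv := fun x => by
        rw [← Bf_mul (g⁻¹ : Supp).2, ← Subgroup.coe_mul, mul_inv_cancel]; exact Bf_one x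
      map_rel_iff' := (Bf_strictMono g.2).le_iff_le }
  map_one' := by ext x; exact Bf_one x
  map_mul' := fun g h => by ext x; exact Bf_mul h.2 x

theorem BB_apply (g : Supp) (x : ℝ) : BB g x = Bf g x := rfl

/-- The Cantor set. -/
noncomputable def CC : Set ℝ := Icc (J (-1) 0) (J 1 0) \ ⋃ q ∈ DD, Ioo (J q 0) (J q 1)

theorem wt_neg_one : wt (-1) = 0 := wt_zero fun h => by have := h.2; norm_num at this

theorem wt_one : wt 1 = 0 := wt_zero fun h => by have := h.2; norm_num at this

theorem mem_CC_iff {x : ℝ} : x ∈ CC ↔ |PP x| ≤ 1 ∧ (ss x = 0 ∨ ss x = 1) := by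
  obtain ⟨h1, h2, h3, h4⟩ := ss_spec x
  have key1 : x ∈ Icc (J (-1) 0) (J 1 0) ↔ |PP x| ≤ 1 := by
    rw [abs_le]
    refine and_congr ?_ ?_
    · rw [← not_lt, ← not_lt]
      refine not_congr ?_
      rw [lt_iff_coord, (PP_J le_rfl zero_le_one fun _ => rfl).1,
        (PP_J le_rfl zero_le_one fun _ => rfl).2]
      constructor
      · rintro (h | ⟨h, h'⟩)
        · exact h
        · linarith
      · exact Or.inl
    · rw [← not_lt, ← not_lt]
      refine not_congr ?_
      rw [lt_iff_coord, (PP_J le_rfl zero_le_one fun _ => rfl).1,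
        (PP_J le_rfl zero_le_one fun _ => rfl).2]
      constructor
      · rintro (h | ⟨h, h'⟩)
        · exact h
        · rw [h3 (by rw [← h]; exact wt_one)] at h'
          exact absurd h' (lt_irrefl _)
      · exact Or.inl
  have key2 : x ∈ ⋃ q ∈ DD, Ioo (J q 0) (J q 1) ↔ 0 < ss x ∧ ss x < 1 := by
    simp only [mem_iUnion, exists_prop]
    constructor
    · rintro ⟨q, hq, h5, h6⟩
      have hw := wt_pos hq
      rw [lt_iff_coord, (PP_J le_rfl zero_le_one fun _ => rfl).1,
        (PP_J le_rfl zero_le_one fun _ => rfl).2] at h5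
      rw [lt_iff_coord, (PP_J zero_le_one le_rfl fun h => absurd h hw.ne').1,
        (PP_J zero_le_one le_rfl fun h => absurd h hw.ne').2] at h6
      rcases h5 with h5 | ⟨h5, h5'⟩
      · rcases h6 with h6 | ⟨h6, h6'⟩ <;> linarith
      · rcases h6 with h6 | ⟨h6, h6'⟩
        · linarith
        · exact ⟨h5', h6'⟩
    · rintro ⟨h5, h6⟩
      have hw : wt (PP x) ≠ 0 := fun h => by rw [h3 h] at h5; exact lt_irrefl _ h5
      have hD : PP x ∈ DD := by
        by_contra h; exact hw (wt_zero h)
      refine ⟨PP x, hD, ?_, ?_⟩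
      · rw [lt_iff_coord, (PP_J le_rfl zero_le_one fun _ => rfl).1,
          (PP_J le_rfl zero_le_one fun _ => rfl).2]
        exact Or.inr ⟨rfl, h5⟩
      · rw [lt_iff_coord, (PP_J zero_le_one le_rfl fun h => absurd h hw).1,
          (PP_J zero_le_one le_rfl fun h => absurd h hw).2]
        exact Or.inr ⟨rfl, h6⟩
  unfold CC
  rw [Set.mem_sdiff, key1, key2]
  refine and_congr Iff.rfl ?_
  constructor
  · intro h
    rcases eq_or_lt_of_le h1 with h5 | h5
    · exact Or.inl h5.symm
    · rcases eq_or_lt_of_le h2 with h6 | h6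
      · exact Or.inr h6
      · exact absurd ⟨h5, h6⟩ h
  · rintro (h | h) ⟨h5, h6⟩ <;> linarith

theorem J_mem_CC {y : ℝ} (hy : |y| ≤ 1) : J y 0 ∈ CC := by
  obtain ⟨h1, h2⟩ := PP_J (y := y) le_rfl zero_le_one fun _ => rfl
  rw [mem_CC_iff, h1, h2]
  exact ⟨hy, Or.inl rfl⟩

theorem abs_le_of_supp {g : OA} (hg : g ∈ Supp) {y : ℝ} : |g y| ≤ 1 ↔ |y| ≤ 1 := by
  constructor
  · intro h
    rcases lt_or_ge |y| 1 with h1 | h1
    · exact h1.le
    · rwa [hg.2 y h1] at h
  · intro h
    rcases h.lt_or_eq with h1 | h1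
    · exact ((abs_lt_of_supp hg).2 h1).le
    · rw [hg.2 y h1.ge]; exact h

theorem BB_mem_CC (g : Supp) {x : ℝ} : BB g x ∈ CC ↔ x ∈ CC := by
  rw [mem_CC_iff, mem_CC_iff, BB_apply, (Bf_coord g.2 x).1, (Bf_coord g.2 x).2,
    abs_le_of_supp g.2]

theorem CC_compact : IsCompact CC := by
  unfold CC
  refine isCompact_Icc.diff ?_
  exact isOpen_biUnion fun _ _ => isOpen_Ioo

theorem CC_nonempty : CC.Nonempty := ⟨J 0 0, J_mem_CC (by simp)⟩

/-- Between two points of `CC` there is a point outside `CC`. -/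
theorem exists_gap {x x' : ℝ} (h : x < x') (hx : x ∈ CC) (hx' : x' ∈ CC) :
    ∃ z, x < z ∧ z < x' ∧ z ∉ CC := by
  have hhalf : ∀ q ∈ DD, PP (J q (1 / 2)) = q ∧ ss (J q (1 / 2)) = 1 / 2 := fun q hq =>
    PP_J (by norm_num) (by norm_num) fun h => absurd h (wt_pos hq).ne'
  obtain ⟨a1, a2⟩ := mem_CC_iff.1 hx
  obtain ⟨b1, b2⟩ := mem_CC_iff.1 hx'
  rcases lt_iff_coord.1 h with h1 | ⟨h1, h2⟩
  · obtain ⟨q, hq, hq'⟩ := exists_rat_btwn h1
    have hD : (q : ℝ) ∈ DD := by
      refine ⟨⟨q, rfl⟩, ?_⟩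
      rw [abs_le] at a1 b1
      rw [abs_lt]; constructor <;> linarith
    refine ⟨J q (1 / 2), ?_, ?_, ?_⟩
    · rw [lt_iff_coord, (hhalf _ hD).1]; exact Or.inl hq
    · rw [lt_iff_coord, (hhalf _ hD).1]; exact Or.inl hq'
    · rw [mem_CC_iff, (hhalf _ hD).2]
      rintro ⟨-, h3 | h3⟩ <;> norm_num at h3
  · have c1 : ss x = 0 := by
      rcases a2 with h3 | h3
      · exact h3
      · have := (ss_spec x').2.1; linarith
    have c2 : ss x' = 1 := by
      rcases b2 with h3 | h3
      · rw [c1, h3] at h2; exact absurd h2 (lt_irrefl _)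
      · exact h3
    have hD : PP x ∈ DD := by
      by_contra h3
      have h4 := (ss_spec x').2.2.1 (by rw [← h1]; exact wt_zero h3)
      rw [c2] at h4; norm_num at h4
    refine ⟨J (PP x) (1 / 2), ?_, ?_, ?_⟩
    · rw [lt_iff_coord, (hhalf _ hD).1, (hhalf _ hD).2, c1]
      exact Or.inr ⟨rfl, by norm_num⟩
    · rw [lt_iff_coord, (hhalf _ hD).1, (hhalf _ hD).2, c2]
      exact Or.inr ⟨h1, by norm_num⟩
    · rw [mem_CC_iff, (hhalf _ hD).2]
      rintro ⟨-, h3 | h3⟩ <;> norm_num at h3

theorem CC_totallyDisconnected : IsTotallyDisconnected CC := by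
  intro t ht htc x hx x' hx'
  by_contra hne
  wlog h : x < x' generalizing x x' with H
  · exact H hx' hx (Ne.symm hne) (lt_of_le_of_ne (not_lt.1 h) (Ne.symm hne))
  obtain ⟨z, hz1, hz2, hz3⟩ := exists_gap h (ht hx) (ht hx')
  exact hz3 (ht (htc.ordConnected.out hx hx' ⟨hz1.le, hz2.le⟩))

theorem CC_preperfect : Preperfect CC := by
  intro x hx
  rw [accPt_iff_nhds]
  intro U hU
  obtain ⟨ε, hε, hball⟩ := Metric.mem_nhds_iff.1 hU
  obtain ⟨a1, a2⟩ := mem_CC_iff.1 hx
  obtain ⟨h1, h2, h3, h4⟩ := ss_spec x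
  -- approximate from the left
  have left : ss x = 0 → -1 < PP x → ∃ y ∈ U ∩ CC, y ≠ x := by
    intro hs hP
    rw [hs] at h4
    have h5 : max (x - ε) (J (-1) 0) < J (PP x) 0 := by
      refine max_lt (by rw [h4]; linarith) (J_lt hP zero_le_one le_rfl)
    obtain ⟨y', hy', h6⟩ := left_approx h5
    have h7 := (max_lt_iff.1 h6)
    have h8 : -1 < y' := by
      by_contra hle
      push Not at hle
      rcases hle.lt_or_eq with h9 | h9
      · have := J_lt (s := 0) (s' := 0) h9 zero_le_one le_rfl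
        linarith [h7.2]
      · rw [h9] at h7; exact lt_irrefl _ h7.2
    have h9 : J y' 0 < x := by rw [← h4]; exact J_lt hy' zero_le_one le_rfl
    refine ⟨J y' 0, ⟨hball ?_, J_mem_CC ?_⟩, h9.ne⟩
    · rw [Metric.mem_ball, Real.dist_eq, abs_lt]
      constructor <;> linarith [h7.1]
    · rw [abs_le] at a1 ⊢
      constructor <;> linarith
  -- approximate from the right
  have right : (ss x = 1 ∨ PP x = -1) → PP x < 1 → ∃ y ∈ U ∩ CC, y ≠ x := by
    intro hs hP
    have hx1 : x = J (PP x) 1 := by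
      rcases hs with hs | hs
      · rw [hs] at h4; exact h4.symm
      · have h5 : ss x = 0 := h3 (by rw [hs]; exact wt_neg_one)
        rw [h5] at h4
        rw [hs] at h4 ⊢
        rw [← h4]; unfold J; rw [wt_neg_one]; ring
    have h5 : J (PP x) 1 < x + ε := by rw [← hx1]; linarith
    obtain ⟨y₁, hy₁, h6⟩ := right_approx h5
    set y' := min y₁ 1 with hy'
    have h7 : PP x < y' := lt_min hy₁ hP
    have h8 : x < J y' 0 := by
      calc x = J (PP x) 1 := hx1
        _ < J y' 0 := J_lt h7 le_rfl le_rfl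
    have h9 : J y' 0 ≤ J y₁ 0 := by
      rcases (min_le_left y₁ 1).lt_or_eq with h10 | h10
      · exact (J_lt h10 zero_le_one le_rfl).le
      · rw [hy', h10]
    refine ⟨J y' 0, ⟨hball ?_, J_mem_CC ?_⟩, h8.ne'⟩
    · rw [Metric.mem_ball, Real.dist_eq, abs_lt]
      constructor <;> linarith
    · rw [abs_le] at a1 ⊢
      exact ⟨by linarith, min_le_right _ _⟩
  rw [abs_le] at a1
  rcases a2 with h5 | h5
  · rcases a1.1.lt_or_eq with h6 | h6
    · exact left h5 h6
    · exact right (Or.inr h6.symm) (by linarith)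
  · refine right (Or.inl h5) ?_
    rcases a1.2.lt_or_eq with h6 | h6
    · exact h6
    · have := h3 (by rw [h6]; exact wt_one)
      linarith

/-- An element of `Supp` whose action on the Cantor set is trivial is trivial. -/
theorem BB_faithful {g : Supp} (h : ∀ x ∈ CC, BB g x = x) : g = 1 := by
  have h1 : ∀ q ∈ DD, (g : OA) q = q := by
    intro q hq
    have h2 := h _ (J_mem_CC (hq.2.le))
    have h3 := (Bf_coord g.2 (J q 0)).1
    rw [BB_apply] at h2
    rw [h2, (PP_J le_rfl zero_le_one fun _ => rfl).1] at h3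
    exact h3.symm
  apply Subtype.ext
  ext x
  show (g : OA) x = x
  rcases le_or_gt 1 |x| with hx | hx
  · exact g.2.2 x hx
  · have hx' := (abs_lt_of_supp g.2).2 hx
    rw [abs_lt] at hx hx'
    rcases lt_trichotomy ((g : OA) x) x with h2 | h2 | h2
    · obtain ⟨q, hq, hq'⟩ := exists_rat_btwn h2
      have hD : (q : ℝ) ∈ DD := ⟨⟨q, rfl⟩, by rw [abs_lt]; constructor <;> linarith⟩
      have h3 := (g : OA).strictMono hq'
      rw [h1 _ hD] at h3
      linarith
    · exact h2
    · obtain ⟨q, hq, hq'⟩ := exists_rat_btwn h2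
      have hD : (q : ℝ) ∈ DD := ⟨⟨q, rfl⟩, by rw [abs_lt]; constructor <;> linarith⟩
      have h3 := (g : OA).strictMono hq
      rw [h1 _ hD] at h3
      linarith

end Pool.Agent.N513.QM
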