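import Mathlib

/-! Homogeneous quasimorphisms, the quotient by the homomorphisms, amenability. -/

set_option autoImplicit false

namespace Pool.Agent.N513.QM

/-- `f` is a homogeneous quasimorphism on the group `G`: it has bounded defect and satisfies
`f (g ^ n) = n * f g` for all integers `n`. -/
def IsHomogeneousQuasimorphism {G : Type} [Group G] (f : G → ℝ) : Prop :=
  (∃ D : ℝ, ∀ g h : G, |f (g * h) - f g - f h| ≤ D) ∧ ∀ (g : G) (n : ℤ), f (g ^ n) = n * f g

/-- The real vector space `Q(G)` of homogeneous quasimorphisms on `G`. -/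
def Q (G : Type) [Group G] : Submodule ℝ (G → ℝ) where
  carrier := {f | IsHomogeneousQuasimorphism f}
  zero_mem' := ⟨⟨0, fun g h => by simp⟩, fun g n => by simp⟩
  add_mem' := by
    rintro f₁ f₂ ⟨⟨D₁, h₁⟩, k₁⟩ ⟨⟨D₂, h₂⟩, k₂⟩
    refine ⟨⟨D₁ + D₂, fun g h => ?_⟩, fun g n => ?_⟩
    · have e : (f₁ + f₂) (g * h) - (f₁ + f₂) g - (f₁ + f₂) h =
          (f₁ (g * h) - f₁ g - f₁ h) + (f₂ (g * h) - f₂ g - f₂ h) := by
        simp only [Pi.add_apply]; ring
      rw [e]
      exact (abs_add_le _ _).trans (add_le_add (h₁ g h) (h₂ g h))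
    · simp only [Pi.add_apply, k₁, k₂]; ring
  smul_mem' := by
    rintro c f ⟨⟨D, h₁⟩, k₁⟩
    refine ⟨⟨|c| * D, fun g h => ?_⟩, fun g n => ?_⟩
    · have e : (c • f) (g * h) - (c • f) g - (c • f) h = c * (f (g * h) - f g - f h) := by
        simp only [Pi.smul_apply, smul_eq_mul]; ring
      rw [e, abs_mul]
      exact mul_le_mul_of_nonneg_left (h₁ g h) (abs_nonneg c)
    · simp only [Pi.smul_apply, smul_eq_mul, k₁]; ring

/-- The real vector space `Hom(G, ℝ)` of homomorphisms from `G` to `ℝ`. -/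
def HomSubspace (G : Type) [Group G] : Submodule ℝ (G → ℝ) where
  carrier := {f | ∀ g h : G, f (g * h) = f g + f h}
  zero_mem' := fun g h => by simp
  add_mem' := by
    intro f₁ f₂ h₁ h₂ g h
    simp only [Pi.add_apply, h₁ g h, h₂ g h]; ring
  smul_mem' := by
    intro c f h₁ g h
    simp only [Pi.smul_apply, smul_eq_mul, h₁ g h]; ring

/-- The real vector space `Q(G) / Hom(G, ℝ)` (homomorphisms are homogeneous quasimorphisms). -/
abbrev QTilde (G : Type) [Group G] : Type := Q G ⧸ (HomSubspace G).comap (Q G).subtype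

/-- The discrete group `G` is amenable: there is a left-invariant finitely additive probability
measure on all subsets of `G`. -/
def IsAmenable (G : Type) [Group G] : Prop :=
  ∃ m : Set G → ℝ, (∀ A, 0 ≤ m A) ∧ m Set.univ = 1 ∧
    (∀ A B, Disjoint A B → m (A ∪ B) = m A + m B) ∧
    ∀ (g : G) (A : Set G), m ((fun x => g * x) '' A) = m A

end Pool.Agent.N513.QM
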