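import Pool.Agent.N513.QM.Wreath
import Pool.Agent.N513.QM.Amen

/-! Order automorphisms of the line: two piecewise linear maps playing ping-pong, and the
compression of the line to the interval `(-1, 1)`. -/

set_option autoImplicit false

namespace Pool.Agent.N513.QM

/-- The group of increasing bijections of the line. -/
abbrev OA : Type := ℝ ≃o ℝ

theorem OA.mul_apply (g h : OA) (x : ℝ) : (g * h) x = g (h x) := rfl

theorem OA.one_apply (x : ℝ) : (1 : OA) x = x := rfl

theorem OA.inv_apply_self (g : OA) (x : ℝ) : g⁻¹ (g x) = x := RelIso.inv_apply_self g x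

theorem OA.apply_inv_self (g : OA) (x : ℝ) : g (g⁻¹ x) = x := RelIso.apply_inv_self g x

/-- `x` is rational. -/
def IsRat (x : ℝ) : Prop := ∃ q : ℚ, (q : ℝ) = x

theorem IsRat.add {x y : ℝ} (hx : IsRat x) (hy : IsRat y) : IsRat (x + y) := by
  obtain ⟨p, rfl⟩ := hx; obtain ⟨q, rfl⟩ := hy; exact ⟨p + q, by push_cast; ring⟩

theorem IsRat.sub {x y : ℝ} (hx : IsRat x) (hy : IsRat y) : IsRat (x - y) := by
  obtain ⟨p, rfl⟩ := hx; obtain ⟨q, rfl⟩ := hy; exact ⟨p - q, by push_cast; ring⟩

theorem IsRat.mul {x y : ℝ} (hx : IsRat x) (hy : IsRat y) : IsRat (x * y) := by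
  obtain ⟨p, rfl⟩ := hx; obtain ⟨q, rfl⟩ := hy; exact ⟨p * q, by push_cast; ring⟩

theorem IsRat.div {x y : ℝ} (hx : IsRat x) (hy : IsRat y) : IsRat (x / y) := by
  obtain ⟨p, rfl⟩ := hx; obtain ⟨q, rfl⟩ := hy; exact ⟨p / q, by push_cast; ring⟩

theorem IsRat.abs {x : ℝ} (hx : IsRat x) : IsRat |x| := by
  obtain ⟨p, rfl⟩ := hx; exact ⟨|p|, by push_cast; ring⟩

theorem isRat_ofNat (n : ℕ) [n.AtLeastTwo] : IsRat (OfNat.ofNat n : ℝ) := ⟨OfNat.ofNat n, by simp⟩

theorem isRat_one : IsRat (1 : ℝ) := ⟨1, by simp⟩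

theorem isRat_int (n : ℤ) : IsRat (n : ℝ) := ⟨n, by simp⟩

/-- The order automorphisms of the line preserving the set of rational numbers. -/
def RatPres : Subgroup OA where
  carrier := {g | ∀ x, IsRat (g x) ↔ IsRat x}
  one_mem' := fun x => Iff.rfl
  mul_mem' := fun {g h} hg hh x => (hg (h x)).trans (hh x)
  inv_mem' := fun {g} hg x => by
    have := hg (g⁻¹ x)
    rw [OA.apply_inv_self] at this
    exact this.symm

theorem mem_RatPres {g : OA} : g ∈ RatPres ↔ ∀ x, IsRat (g x) ↔ IsRat x := Iff.rfl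

/-! ### The ping-pong maps -/

/-- The map `a` on a period. -/
noncomputable def A0 (t : ℝ) : ℝ := min (3 * t - 1 / 4) (t / 3 + 5 / 12)

theorem A0_strictMono : StrictMono A0 := by
  intro s t h
  unfold A0
  exact lt_min ((min_le_left _ _).trans_lt (by linarith)) ((min_le_right _ _).trans_lt (by linarith))

theorem A0_zero : A0 0 = -1 / 4 := by
  unfold A0; rw [min_eq_left] <;> norm_num

theorem A0_one : A0 1 = 3 / 4 := by
  unfold A0; rw [min_eq_right] <;> norm_num

/-- The map `a`. -/
noncomputable def afun (x : ℝ) : ℝ := ⌊x⌋ + A0 (Int.fract x)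

theorem afun_strictMono : StrictMono afun := by
  intro x y h
  unfold afun
  have h0 : (⌊x⌋ : ℝ) + Int.fract x = x := Int.floor_add_fract x
  have h1 : (⌊y⌋ : ℝ) + Int.fract y = y := Int.floor_add_fract y
  rcases eq_or_lt_of_le (Int.floor_le_floor h.le) with he | hl
  · rw [he]
    have : Int.fract x < Int.fract y := by rw [he] at h0; linarith
    have := A0_strictMono this
    linarith
  · have h2 : (⌊x⌋ : ℝ) + 1 ≤ ⌊y⌋ := by exact_mod_cast hl
    have h3 : A0 (Int.fract x) < 3 / 4 := by
      rw [← A0_one]; exact A0_strictMono (Int.fract_lt_one x)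
    have h4 : -1 / 4 ≤ A0 (Int.fract y) := by
      rw [← A0_zero]; exact A0_strictMono.monotone (Int.fract_nonneg y)
    linarith

theorem afun_surj : Function.Surjective afun := by
  intro y
  have hm := Int.floor_le (y + 1 / 4)
  have hm' := Int.lt_floor_add_one (y + 1 / 4)
  set m := ⌊y + 1 / 4⌋ with hmdef
  set u := y - m with hu
  have hu0 : -1 / 4 ≤ u := by linarith
  have hu1 : u < 3 / 4 := by linarith
  refine ⟨m + max ((u + 1 / 4) / 3) (3 * u - 5 / 4), ?_⟩
  have hs0 : 0 ≤ max ((u + 1 / 4) / 3) (3 * u - 5 / 4) := le_max_of_le_left (by linarith)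
  have hs1 : max ((u + 1 / 4) / 3) (3 * u - 5 / 4) < 1 := max_lt (by linarith) (by linarith)
  have hfl : ⌊(m : ℝ) + max ((u + 1 / 4) / 3) (3 * u - 5 / 4)⌋ = m := by
    rw [Int.floor_eq_iff]; constructor <;> linarith
  have hfr : Int.fract ((m : ℝ) + max ((u + 1 / 4) / 3) (3 * u - 5 / 4)) =
      max ((u + 1 / 4) / 3) (3 * u - 5 / 4) := by
    unfold Int.fract; rw [hfl]; ring
  unfold afun
  rw [hfl, hfr]
  unfold A0
  rcases le_total u (1 / 2) with h | h
  · rw [max_eq_left (by linarith), min_eq_left (by linarith)]; rw [hu]; ring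
  · rw [max_eq_right (by linarith), min_eq_right (by linarith)]; rw [hu]; ring

/-- The map `a` as an order automorphism. -/
noncomputable def aOA : OA := afun_strictMono.orderIsoOfSurjective _ afun_surj

theorem aOA_apply (x : ℝ) : aOA x = afun x := rfl

/-- Translation. -/
def trans (c : ℝ) : OA := OrderIso.addRight c

theorem trans_apply (c x : ℝ) : trans c x = x + c := rfl

/-- The map `b`. -/
noncomputable def bOA : OA := trans (1 / 4) * aOA * (trans (1 / 4))⁻¹

theorem trans_inv_apply (c x : ℝ) : (trans c)⁻¹ x = x - c := by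
  have : (trans c) (x - c) = x := by rw [trans_apply]; ring
  rw [← this, OA.inv_apply_self, this]

theorem bOA_apply (x : ℝ) : bOA x = afun (x - 1 / 4) + 1 / 4 := by
  unfold bOA
  rw [OA.mul_apply, OA.mul_apply, trans_inv_apply, trans_apply, aOA_apply]

theorem trans_mem {c : ℝ} (hc : IsRat c) : trans c ∈ RatPres := by
  intro x
  rw [trans_apply]
  exact ⟨fun h => by simpa using h.sub hc, fun h => h.add hc⟩

theorem isRat_quarter : IsRat (1 / 4 : ℝ) := isRat_one.div (isRat_ofNat 4)

theorem aOA_mem : aOA ∈ RatPres := by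
  intro x
  rw [aOA_apply]
  unfold afun A0
  have h0 : (⌊x⌋ : ℝ) + Int.fract x = x := Int.floor_add_fract x
  have k3 := isRat_ofNat 3
  have k5 : IsRat (5 / 12 : ℝ) := (isRat_ofNat 5).div (isRat_ofNat 12)
  constructor
  · intro h
    have h1 : IsRat (min (3 * Int.fract x - 1 / 4) (Int.fract x / 3 + 5 / 12)) := by
      simpa using h.sub (isRat_int ⌊x⌋)
    have h2 : IsRat (Int.fract x) := by
      rcases min_choice (3 * Int.fract x - 1 / 4) (Int.fract x / 3 + 5 / 12) with h3 | h3
      · rw [h3] at h1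
        have := (h1.add isRat_quarter).div k3
        convert this using 1; ring
      · rw [h3] at h1
        have := (h1.sub k5).mul k3
        convert this using 1; ring
    rw [← h0]; exact (isRat_int _).add h2
  · intro h
    have h2 : IsRat (Int.fract x) := h.sub (isRat_int _)
    refine (isRat_int _).add ?_
    rcases min_choice (3 * Int.fract x - 1 / 4) (Int.fract x / 3 + 5 / 12) with h3 | h3
    · rw [h3]; exact (k3.mul h2).sub isRat_quarter
    · rw [h3]; exact (h2.div k3).add k5

theorem bOA_mem : bOA ∈ RatPres :=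
  RatPres.mul_mem (RatPres.mul_mem (trans_mem isRat_quarter) aOA_mem)
    (RatPres.inv_mem (trans_mem isRat_quarter))

/-- The group generated by `a` and `b`. -/
noncomputable def KK : Subgroup OA := Subgroup.closure {aOA, bOA}

theorem KK_le : KK ≤ RatPres := by
  unfold KK
  rw [Subgroup.closure_le]
  rintro x (rfl | rfl)
  · exact aOA_mem
  · exact bOA_mem

theorem afun_of_not {x : ℝ} (hx : 1 / 4 ≤ Int.fract x) :
    1 / 2 ≤ Int.fract (afun x) ∧ Int.fract (afun x) < 3 / 4 := by
  have h1 := Int.fract_lt_one x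
  have h2 : A0 (Int.fract x) = Int.fract x / 3 + 5 / 12 := by
    unfold A0; rw [min_eq_right]; linarith
  have h3 : Int.fract (afun x) = Int.fract x / 3 + 5 / 12 := by
    rw [Int.fract_eq_iff]
    refine ⟨by linarith, by linarith, ⌊x⌋, ?_⟩
    unfold afun; rw [h2]; ring
  rw [h3]
  constructor <;> linarith

theorem KK_not_amenable : ¬ IsAmenable KK := by
  let act : MulAction KK ℝ :=
    { smul := fun g x => (g : OA) x
      one_smul := fun x => rfl
      mul_smul := fun g h x => rfl }
  have ha : aOA ∈ KK := Subgroup.subset_closure (by simp)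
  have hb : bOA ∈ KK := Subgroup.subset_closure (by simp)
  refine not_amenable_of_pingpong (0 : ℝ) (⟨aOA, ha⟩ : KK) (⟨bOA, hb⟩ : KK)
    {x | 1 / 2 ≤ Int.fract x ∧ Int.fract x < 3 / 4} {x | Int.fract x < 1 / 4}
    {x | 3 / 4 ≤ Int.fract x} {x | 1 / 4 ≤ Int.fract x ∧ Int.fract x < 1 / 2} ?_ ?_ ?_ ?_ ?_
  · rw [Set.disjoint_left]
    rintro x ⟨h1, h2⟩ h3
    simp only [Set.mem_ofPred_eq] at *
    linarith
  · rw [Set.disjoint_left]
    rintro x h1 ⟨h2, h3⟩
    simp only [Set.mem_ofPred_eq] at *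
    linarith
  · rw [Set.disjoint_left]
    rintro x (⟨h1, h2⟩ | h1) (h3 | ⟨h3, h4⟩)
    · have h3' : 3 / 4 ≤ Int.fract x := h3
      linarith
    · linarith
    · have h1' : Int.fract x < 1 / 4 := h1
      have h3' : 3 / 4 ≤ Int.fract x := h3
      linarith
    · have h1' : Int.fract x < 1 / 4 := h1
      linarith
  · intro x hx
    simp only [Set.mem_ofPred_eq, not_lt] at hx
    exact afun_of_not hx
  · intro x hx
    have h1 : 1 / 4 ≤ Int.fract (x - 1 / 4) := by
      by_contra hlt
      push Not at hlt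
      apply hx
      have h2 : Int.fract x = Int.fract (x - 1 / 4) + 1 / 4 := by
        rw [Int.fract_eq_iff]
        have := Int.fract_nonneg (x - 1 / 4)
        refine ⟨by linarith, by linarith, ⌊x - 1 / 4⌋, ?_⟩
        have := Int.floor_add_fract (x - 1 / 4)
        linarith
      have := Int.fract_nonneg (x - 1 / 4)
      constructor <;> rw [h2] <;> linarith
    obtain ⟨h2, h3⟩ := afun_of_not h1
    show 3 / 4 ≤ Int.fract (bOA x)
    rw [bOA_apply]
    have h4 : Int.fract (afun (x - 1 / 4) + 1 / 4) = Int.fract (afun (x - 1 / 4)) + 1 / 4 := by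
      rw [Int.fract_eq_iff]
      refine ⟨by linarith, by linarith, ⌊afun (x - 1 / 4)⌋, ?_⟩
      have := Int.floor_add_fract (afun (x - 1 / 4))
      linarith
    rw [h4]; linarith

/-! ### Compression to the interval `(-1, 1)` -/

/-- The homeomorphism of the line onto `(-1, 1)`. -/
noncomputable def tau (x : ℝ) : ℝ := x / (1 + |x|)

/-- Its inverse. -/
noncomputable def tauInv (x : ℝ) : ℝ := x / (1 - |x|)

theorem abs_tau_lt (x : ℝ) : |tau x| < 1 := by
  unfold tau
  have h : 0 < 1 + |x| := by positivity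
  rw [abs_div, abs_of_pos h, div_lt_one h]; linarith

theorem tauInv_tau (x : ℝ) : tauInv (tau x) = x := by
  unfold tauInv tau
  have h : 0 < 1 + |x| := by positivity
  rw [abs_div, abs_of_pos h]
  field_simp
  ring

theorem tau_tauInv {x : ℝ} (hx : |x| < 1) : tau (tauInv x) = x := by
  unfold tauInv tau
  have h : 0 < 1 - |x| := by linarith
  rw [abs_div, abs_of_pos h]
  field_simp
  ring

theorem tau_strictMono : StrictMono tau := by
  intro x y h
  unfold tau
  rw [div_lt_div_iff₀ (by positivity) (by positivity)]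
  rcases abs_cases x with ⟨h1, h2⟩ | ⟨h1, h2⟩ <;> rcases abs_cases y with ⟨h3, h4⟩ | ⟨h3, h4⟩ <;>
    rw [h1, h3] <;> nlinarith

theorem tauInv_lt {x y : ℝ} (hx : |x| < 1) (hy : |y| < 1) (h : x < y) : tauInv x < tauInv y := by
  rw [← tau_strictMono.lt_iff_lt, tau_tauInv hx, tau_tauInv hy]; exact h

theorem isRat_tau {x : ℝ} (h : IsRat x) : IsRat (tau x) := h.div (isRat_one.add h.abs)

theorem isRat_tauInv {x : ℝ} (h : IsRat x) : IsRat (tauInv x) := h.div (isRat_one.sub h.abs)

/-- The compression of an order automorphism. -/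
noncomputable def Ef (g : OA) (x : ℝ) : ℝ := if |x| < 1 then tau (g (tauInv x)) else x

theorem Ef_in (g : OA) {x : ℝ} (hx : |x| < 1) : Ef g x = tau (g (tauInv x)) := if_pos hx

theorem Ef_out (g : OA) {x : ℝ} (hx : 1 ≤ |x|) : Ef g x = x := if_neg (not_lt.2 hx)

theorem Ef_mul (g h : OA) (x : ℝ) : Ef (g * h) x = Ef g (Ef h x) := by
  by_cases hx : |x| < 1
  · rw [Ef_in _ hx, Ef_in _ hx, Ef_in _ (abs_tau_lt _), tauInv_tau]; rfl
  · push Not at hx
    rw [Ef_out _ hx, Ef_out _ hx, Ef_out _ hx]

theorem Ef_one (x : ℝ) : Ef 1 x = x := by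
  by_cases hx : |x| < 1
  · rw [Ef_in _ hx, OA.one_apply, tau_tauInv hx]
  · push Not at hx
    rw [Ef_out _ hx]

theorem Ef_strictMono (g : OA) : StrictMono (Ef g) := by
  intro x y h
  by_cases hx : |x| < 1 <;> by_cases hy : |y| < 1
  · rw [Ef_in _ hx, Ef_in _ hy]
    exact tau_strictMono (g.strictMono (tauInv_lt hx hy h))
  · push Not at hy
    rw [Ef_in _ hx, Ef_out _ hy]
    have h1 := abs_tau_lt (g (tauInv x))
    rw [abs_lt] at hx h1
    rcases le_abs.1 hy with h2 | h2 <;> linarith
  · push Not at hx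
    rw [Ef_in _ hy, Ef_out _ hx]
    have h1 := abs_tau_lt (g (tauInv y))
    rw [abs_lt] at hy h1
    rcases le_abs.1 hx with h2 | h2 <;> linarith
  · push Not at hx hy
    rw [Ef_out _ hx, Ef_out _ hy]; exact h

/-- The compression `E : Aut(ℝ, ≤) → Aut(ℝ, ≤)`. -/
noncomputable def E : OA →* OA where
  toFun g :=
    { toFun := Ef g
      invFun := Ef g⁻¹
      left_inv := fun x => by rw [← Ef_mul, inv_mul_cancel, Ef_one]
      right_inv := fun x => by rw [← Ef_mul, mul_inv_cancel, Ef_one]
      map_rel_iff' := (Ef_strictMono g).le_iff_le }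
  map_one' := by ext x; exact Ef_one x
  map_mul' := fun g h => by ext x; exact Ef_mul g h x

theorem E_apply (g : OA) (x : ℝ) : E g x = Ef g x := rfl

theorem E_injective : Function.Injective E := by
  intro g h hgh
  ext x
  have h1 : E g (tau x) = E h (tau x) := by rw [hgh]
  rw [E_apply, E_apply, Ef_in _ (abs_tau_lt x), Ef_in _ (abs_tau_lt x), tauInv_tau] at h1
  exact tau_strictMono.injective h1

theorem E_mem {g : OA} (hg : g ∈ RatPres) : E g ∈ RatPres := by
  intro x
  rw [E_apply]
  by_cases hx : |x| < 1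
  · rw [Ef_in _ hx]
    constructor
    · intro h
      have h1 := isRat_tauInv h
      rw [tauInv_tau, hg] at h1
      have h2 := isRat_tau h1
      rwa [tau_tauInv hx] at h2
    · intro h
      exact isRat_tau ((hg _).2 (isRat_tauInv h))
  · push Not at hx
    rw [Ef_out _ hx]

/-- The order automorphisms preserving the rationals and supported in `(-1, 1)`. -/
def Supp : Subgroup OA where
  carrier := {g | g ∈ RatPres ∧ ∀ x, 1 ≤ |x| → g x = x}
  one_mem' := ⟨RatPres.one_mem, fun x _ => rfl⟩
  mul_mem' := by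
    rintro g h ⟨hg, hg'⟩ ⟨hh, hh'⟩
    refine ⟨RatPres.mul_mem hg hh, fun x hx => ?_⟩
    rw [OA.mul_apply, hh' x hx, hg' x hx]
  inv_mem' := by
    rintro g ⟨hg, hg'⟩
    refine ⟨RatPres.inv_mem hg, fun x hx => ?_⟩
    have := OA.inv_apply_self g x
    rwa [hg' x hx] at this

theorem E_mem_Supp {g : OA} (hg : g ∈ RatPres) : E g ∈ Supp :=
  ⟨E_mem hg, fun _ hx => Ef_out g hx⟩

/-! ### The wreath product -/

/-- The group generated by the compressions of `a` and `b` and the translation by `2`. -/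
noncomputable def WW : Subgroup OA := Subgroup.closure {E aOA, E bOA, trans 2}

theorem E_KK : Subgroup.closure {E aOA, E bOA} = KK.map E := by
  unfold KK
  rw [MonoidHom.map_closure, Set.image_pair]

theorem EK_le : KK.map E ≤ WW := by
  rw [← E_KK]
  exact Subgroup.closure_mono (by intro x hx; rcases hx with hx | hx <;> simp_all)

theorem WW_le : WW ≤ RatPres := by
  unfold WW
  rw [Subgroup.closure_le]
  rintro x (rfl | rfl | rfl)
  · exact E_mem aOA_mem
  · exact E_mem bOA_mem
  · exact trans_mem (isRat_ofNat 2)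

theorem trans_zpow (n : ℤ) : (trans 2) ^ n = trans (2 * n) := by
  have h : ∀ m : ℕ, (trans 2) ^ m = trans (2 * m) := by
    intro m
    induction m with
    | zero => ext x; simp [trans_apply, OA.one_apply]
    | succ m ih => rw [pow_succ, ih]; ext x; simp only [OA.mul_apply, trans_apply]; push_cast; ring
  have hinv : ∀ c : ℝ, (trans c)⁻¹ = trans (-c) := by
    intro c; ext x; rw [trans_inv_apply, trans_apply]; ring
  obtain ⟨m, rfl | rfl⟩ := n.eq_nat_or_neg
  · rw [zpow_natCast, h]; push_cast; rfl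
  · rw [zpow_neg, zpow_natCast, h, hinv]; push_cast; congr 1; ring

theorem commute_shift {n : ℤ} (hn : n ≠ 0) (g h : OA) :
    Commute (E g) ((trans 2) ^ n * E h * ((trans 2) ^ n)⁻¹) := by
  rw [trans_zpow]
  -- the support of the second element is disjoint from `(-1, 1)`
  have hn' : (2 : ℝ) ≤ |2 * (n : ℝ)| := by
    rw [abs_mul]
    have : (1 : ℝ) ≤ |(n : ℝ)| := by exact_mod_cast Int.one_le_abs hn
    have h2 : |(2 : ℝ)| = 2 := abs_of_pos (by norm_num)
    rw [h2]; linarith
  have k2 : ∀ x : ℝ, (trans (2 * n) * E h * (trans (2 * n))⁻¹) x = Ef h (x - 2 * n) + 2 * n := by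
    intro x
    rw [OA.mul_apply, OA.mul_apply, trans_inv_apply, trans_apply, E_apply]
  have k3 : ∀ x : ℝ, |x| < 1 → Ef h (x - 2 * n) + 2 * n = x := by
    intro x hx
    rw [Ef_out]
    · ring
    · rw [abs_sub_comm]
      have := abs_sub_abs_le_abs_sub (2 * (n : ℝ)) x
      linarith
  have k4 : ∀ x : ℝ, 1 ≤ |x| → 1 ≤ |Ef h (x - 2 * n) + 2 * n| := by
    intro x hx
    by_contra hlt
    push Not at hlt
    have e1 := k3 _ hlt
    -- injectivity
    have h3 : Ef h ((Ef h (x - 2 * n) + 2 * n) - 2 * n) = Ef h (x - 2 * n) := by linarith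
    have h4 := (Ef_strictMono h).injective h3
    have h5 : Ef h (x - 2 * n) + 2 * n = x := by linarith
    rw [h5] at hlt
    linarith
  unfold Commute SemiconjBy
  ext x
  rw [OA.mul_apply (E g) _ x, OA.mul_apply _ (E g) x, k2, k2, E_apply, E_apply]
  by_cases hx : |x| < 1
  · rw [k3 x hx, k3]
    rw [Ef_in _ hx]; exact abs_tau_lt _
  · push Not at hx
    rw [Ef_out g hx, Ef_out g (k4 x hx)]

/-- Homogeneous quasimorphisms on `WW` are homomorphisms. -/
theorem WW_hom (f : WW → ℝ) (hf : IsHomogeneousQuasimorphism f) (g h : WW) :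
    f (g * h) = f g + f h := by
  have hT : trans 2 ∈ WW := Subgroup.subset_closure (by simp)
  refine hom_of_wreath (K := (KK.map E).subgroupOf WW) (σ := ⟨trans 2, hT⟩) ?_ ?_ hf g h
  · intro n hn k hk k' hk'
    rw [Subgroup.mem_subgroupOf] at hk hk'
    obtain ⟨g, -, hg⟩ := hk
    obtain ⟨g', -, hg'⟩ := hk'
    have := commute_shift hn g g'
    unfold Commute SemiconjBy at *
    apply Subtype.ext
    simpa [hg, hg'] using this
  · rw [eq_top_iff]
    rintro ⟨x, hx⟩ -
    have key : ∀ y (hy : y ∈ WW), (⟨y, hy⟩ : WW) ∈ Subgroup.closure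
        ((((KK.map E).subgroupOf WW : Subgroup WW) : Set WW) ∪ {⟨trans 2, hT⟩}) := by
      intro y hy
      induction hy using Subgroup.closure_induction with
      | mem y hy =>
        refine Subgroup.subset_closure ?_
        rcases hy with rfl | rfl | rfl
        · left
          exact ⟨aOA, Subgroup.subset_closure (by simp), rfl⟩
        · left
          exact ⟨bOA, Subgroup.subset_closure (by simp), rfl⟩
        · right; rfl
      | one => exact Subgroup.one_mem _
      | mul y z hy hz h1 h2 => exact Subgroup.mul_mem _ h1 h2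
      | inv y hy h1 => exact Subgroup.inv_mem _ h1
    exact key x hx

end Pool.Agent.N513.QM
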