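import Pool.Agent.N513.QM.Surf
import Pool.Agent.N513.QM.Blow

/-! The action of `Supp` on the plane minus a Cantor set. -/

set_option autoImplicit false

open Topology Set unitInterval

namespace Pool.Agent.N513.QM

open Pool.Agent.H659R3.BigMCG

/-! ### Order automorphisms of the line acting on the plane -/

/-- The homeomorphism `x + i y ↦ g x + i y` of the plane. -/
noncomputable def planeMap (g : OA) : ℂ ≃ₜ ℂ where
  toFun z := ⟨g z.re, z.im⟩
  invFun z := ⟨g⁻¹ z.re, z.im⟩
  left_inv z := by
    apply Complex.ext
    · exact OA.inv_apply_self g _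
    · rfl
  right_inv z := by
    apply Complex.ext
    · exact OA.apply_inv_self g _
    · rfl
  continuous_toFun := by
    have h1 : Continuous fun z : ℂ => ((g z.re, z.im) : ℝ × ℝ) :=
      (g.continuous.comp Complex.continuous_re).prodMk Complex.continuous_im
    exact Complex.equivRealProdCLM.symm.continuous.comp h1
  continuous_invFun := by
    have h1 : Continuous fun z : ℂ => ((g⁻¹ z.re, z.im) : ℝ × ℝ) :=
      ((g⁻¹ : OA).continuous.comp Complex.continuous_re).prodMk Complex.continuous_im
    exact Complex.equivRealProdCLM.symm.continuous.comp h1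

theorem planeMap_apply (g : OA) (z : ℂ) : planeMap g z = ⟨g z.re, z.im⟩ := rfl

theorem planeMap_orient (g : OA) (z : ℂ) : OrientPresAt (planeMap g) z := by
  refine ⟨1, one_pos, fun r hr _ => ?_⟩
  have hc : Continuous fun t : ℝ => z + circ r t := continuous_const.add (continuous_circ r)
  refine (hasWinding_circ hr).of_slit (continuous_circ r) ?_ ?_ ?_
  · exact ((planeMap g).continuous.comp hc).sub continuous_const
  · intro t
    have := circ_add_one r t
    unfold circ at this
    rw [this]
  · intro t
    have h0 : circ r t ≠ 0 := (hasWinding_circ hr).ne_zero t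
    left
    have e : planeMap g (z + r * Complex.exp (2 * Real.pi * t * Complex.I)) - planeMap g z =
        ⟨g (z.re + (circ r t).re) - g z.re, (circ r t).im⟩ := by
      apply Complex.ext
      · rfl
      · show (z + circ r t).im - z.im = (circ r t).im
        rw [Complex.add_im]; ring
    rw [e, Complex.div_re]
    have hn : 0 < Complex.normSq (circ r t) := Complex.normSq_pos.2 h0
    rw [← add_div]
    refine div_pos ?_ hn
    set a := (circ r t).re
    set b := (circ r t).im
    show 0 < (g (z.re + a) - g z.re) * a + b * b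
    rcases lt_trichotomy a 0 with ha | ha | ha
    · have := g.strictMono (show z.re + a < z.re by linarith)
      nlinarith [mul_self_nonneg b]
    · have hb : b ≠ 0 := fun hb => h0 (Complex.ext ha hb)
      rw [ha]
      have := mul_self_pos.2 hb
      simpa using this
    · have := g.strictMono (show z.re < z.re + a by linarith)
      nlinarith [mul_self_nonneg b]

/-! ### The Cantor set in the plane -/

/-- The Cantor set on the real axis. -/
noncomputable def CP : Set ℂ := (fun x : ℝ => (x : ℂ)) '' CC

theorem mem_CP {z : ℂ} : z ∈ CP ↔ z.re ∈ CC ∧ z.im = 0 := by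
  constructor
  · rintro ⟨x, hx, rfl⟩
    exact ⟨by simpa using hx, by simp⟩
  · rintro ⟨h1, h2⟩
    exact ⟨z.re, h1, Complex.ext (by simp) (by simp [h2])⟩

theorem CP_compl_connected : IsConnected CPᶜ := by
  -- the vertical line through a real point outside `CC`, together with two half planes
  obtain ⟨M, hM⟩ : ∃ M, ∀ x ∈ CC, x < M := by
    obtain ⟨M, hM⟩ := CC_compact.bddAbove
    exact ⟨M + 1, fun x hx => by linarith [hM hx]⟩
  let U : Set ℂ := {z | 0 < z.im}
  let L : Set ℂ := {z | z.im < 0}
  let V : ℝ → Set ℂ := fun x => {z | z.re = x}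
  have hU : IsPreconnected U := (convex_halfSpace_im_gt 0).isPreconnected
  have hL : IsPreconnected L := (convex_halfSpace_im_lt 0).isPreconnected
  have hV : ∀ x, IsPreconnected (V x) := fun x => (by
    have h1 : Convex ℝ (V x) := by
      have := (convex_halfSpace_re_le x).inter (convex_halfSpace_re_ge x)
      convert this using 1
      ext z
      simp only [V, mem_ofPred_eq, mem_inter_iff]
      exact le_antisymm_iff
    exact h1.isPreconnected)
  have hUV : ∀ x, IsPreconnected (U ∪ V x ∪ L) := by
    intro x
    refine IsPreconnected.union (⟨x, -1⟩ : ℂ) (Or.inr rfl) (show (-1 : ℝ) < 0 by norm_num)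
      (IsPreconnected.union (⟨x, 1⟩ : ℂ) (show (0 : ℝ) < 1 by norm_num) rfl hU (hV x)) hL
  have hcov : CPᶜ = ⋃ x : {x : ℝ // x ∉ CC}, (U ∪ V x ∪ L) := by
    ext z
    simp only [mem_compl_iff, mem_iUnion]
    rw [mem_CP]
    constructor
    · intro h
      rcases lt_trichotomy z.im 0 with h1 | h1 | h1
      · exact ⟨⟨M, fun h => lt_irrefl _ (hM _ h)⟩, Or.inr h1⟩
      · exact ⟨⟨z.re, fun h2 => h ⟨h2, h1⟩⟩, Or.inl (Or.inr rfl)⟩
      · exact ⟨⟨M, fun h => lt_irrefl _ (hM _ h)⟩, Or.inl (Or.inl h1)⟩
    · rintro ⟨⟨x, hx⟩, (h | h) | h⟩ ⟨h1, h2⟩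
      · have h' : 0 < z.im := h
        linarith
      · have h' : z.re = x := h
        rw [h'] at h1; exact hx h1
      · have h' : z.im < 0 := h
        linarith
  refine ⟨⟨Complex.I, ?_⟩, ?_⟩
  · rw [mem_compl_iff, mem_CP]; simp
  · rw [hcov]
    refine isPreconnected_iUnion ?_ fun x => hUV x
    refine ⟨Complex.I, ?_⟩
    rw [mem_iInter]
    intro x
    left; left
    show 0 < Complex.I.im
    simp

/-- The Cantor set in the plane. -/
noncomputable def XX : PlaneCantorSet where
  carrier := CP
  nonempty := CC_nonempty.image _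
  isCompact := CC_compact.image Complex.continuous_ofReal
  preperfect := by
    rintro _ ⟨x, hx, rfl⟩
    rw [accPt_iff_nhds]
    intro U hU
    have h1 := CC_preperfect x hx
    rw [accPt_iff_nhds] at h1
    obtain ⟨y, ⟨hy1, hy2⟩, hy3⟩ := h1 _ (Complex.continuous_ofReal.continuousAt hU)
    exact ⟨y, ⟨hy1, ⟨y, hy2, rfl⟩⟩, fun h => hy3 (Complex.ofReal_injective h)⟩
  totallyDisconnected :=
    (Complex.isometry_ofReal.isEmbedding.isTotallyDisconnected_image).2 CC_totallyDisconnected
  connected_compl := CP_compl_connected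

theorem planeMap_mem (g : Supp) (z : ℂ) : z ∉ XX.carrier ↔ planeMap (BB g) z ∉ XX.carrier := by
  refine not_congr ?_
  show z ∈ CP ↔ planeMap (BB g) z ∈ CP
  rw [mem_CP, mem_CP, planeMap_apply, BB_mem_CC]

/-- The restriction to the complement of the Cantor set. -/
noncomputable def restr (g : Supp) : XX.Compl ≃ₜ XX.Compl :=
  (planeMap (BB g)).subtype (planeMap_mem g)

theorem restr_apply (g : Supp) (x : XX.Compl) : (restr g x).1 = planeMap (BB g) x.1 := rfl

theorem restr_mul (g h : Supp) : restr (g * h) = restr g * restr h := by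
  ext x
  apply Subtype.ext
  show planeMap (BB (g * h)) x.1 = planeMap (BB g) (planeMap (BB h) x.1)
  rw [map_mul]; rfl

theorem restr_one : restr 1 = 1 := by
  ext x
  apply Subtype.ext
  show planeMap (BB 1) x.1 = x.1
  rw [map_one]; rfl

theorem restr_inv (g : Supp) : (restr g)⁻¹ = restr g⁻¹ := by
  rw [inv_eq_iff_mul_eq_one, ← restr_mul, mul_inv_cancel, restr_one]

theorem restr_orient (g : Supp) : PreservesOrientation (restr g) := by
  rintro _ rfl _ rfl x hx hx'
  refine (planeMap_orient (BB g) (XX.chart x)).congr ?_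
  filter_upwards [XX.chart.open_target.mem_nhds (XX.chart.map_source hx)] with w hw
  show (restr g (XX.chart.symm w)).1 = planeMap (BB g) w
  rw [restr_apply, XX.chart_symm hw]

/-- The homomorphism to the group of orientation-preserving homeomorphisms. -/
noncomputable def toHomeo : Supp →* HomeoPlus XX.Compl where
  toFun g := ⟨restr g, restr_orient g, by rw [restr_inv]; exact restr_orient _⟩
  map_one' := Subtype.ext restr_one
  map_mul' := fun g h => Subtype.ext (restr_mul g h)

/-- The homomorphism to the mapping class group. -/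
noncomputable def Theta : Supp →* Map XX.Compl := toMap.comp toHomeo

/-! ### Homeomorphisms isotopic to the identity fix the Cantor set -/

/-- If `U` is open and its frontier is compact and misses the Cantor set then a homeomorphism of
the plane whose restriction is isotopic to the identity moves no point of the Cantor set across the
frontier of `U`. -/
theorem mem_iff_of_isotopic {g : Supp} (hg : IsotopicToId (restr g)) {U : Set ℂ} (hU : IsOpen U)
    (hF : IsCompact (frontier U)) (hFC : Disjoint (frontier U) CP) {c : ℂ} (hc : c ∈ CP) :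
    c ∈ U ↔ planeMap (BB g) c ∈ U := by
  obtain ⟨Φ, hΦ1, hΦ2, hΦ3⟩ := hg
  -- the compact set of points of the surface which cross the frontier
  let FS : Set XX.Compl := {x | x.1 ∈ frontier U}
  have hFS : IsCompact FS := by
    have hi : IsInducing (Subtype.val : {z : ℂ // z ∉ XX.carrier} → ℂ) := IsInducing.subtypeVal
    refine (hi.isCompact_preimage_iff ?_).2 hF
    intro z hz
    exact ⟨⟨z, fun h => Set.disjoint_left.1 hFC hz h⟩, rfl⟩
  let T : Set (XX.Compl × I) := Φ ⁻¹' (FS ×ˢ univ)
  have hT : IsCompact T := Φ.isCompact_preimage.2 (hFS.prod isCompact_univ)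
  let K : Set ℂ := (fun p : XX.Compl × I => p.1.1) '' T
  have hK : IsCompact K := hT.image (continuous_subtype_val.comp continuous_fst)
  have hcK : c ∉ K := by
    rintro ⟨p, -, rfl⟩
    exact p.1.2 hc
  -- points of the plane near `c` and their images
  have side : ∀ d ∈ CP, ∀ᶠ z in 𝓝 d, (z ∈ U ↔ d ∈ U) := by
    intro d hd
    by_cases hdU : d ∈ U
    · filter_upwards [hU.mem_nhds hdU] with z hz
      exact ⟨fun _ => hdU, fun _ => hz⟩
    · have hd2 : d ∉ closure U := by
        intro h
        exact Set.disjoint_left.1 hFC ⟨h, by rwa [hU.interior_eq]⟩ hd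
      filter_upwards [isClosed_closure.isOpen_compl.mem_nhds hd2] with z hz
      exact ⟨fun h => absurd (subset_closure h) hz, fun h => absurd h hdU⟩
  have hgc : planeMap (BB g) c ∈ CP := by
    by_contra h
    exact (planeMap_mem g c).2 h hc
  have ev1 := side c hc
  have ev2 := (planeMap (BB g)).continuous.continuousAt.eventually (side _ hgc)
  have ev3 : ∀ᶠ z in 𝓝 c, z ∉ K := hK.isClosed.isOpen_compl.mem_nhds hcK
  obtain ⟨ε, hε, hball⟩ := Metric.eventually_nhds_iff.1 (ev1.and (ev2.and ev3))
  -- a point of the surface near `c`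
  let z : ℂ := c + (ε / 2 : ℝ) * Complex.I
  have hz : dist z c < ε := by
    rw [dist_eq_norm]
    have : z - c = (ε / 2 : ℝ) * Complex.I := by simp [z]
    rw [this, norm_mul, Complex.norm_I, mul_one, Complex.norm_real, Real.norm_of_nonneg (by linarith)]
    linarith
  have hzC : z ∉ XX.carrier := by
    intro h
    have h1 := (mem_CP.1 h).2
    have h2 := (mem_CP.1 hc).2
    simp [z, h2] at h1
    linarith
  obtain ⟨e1, e2, e3⟩ := hball hz
  let x : XX.Compl := ⟨z, hzC⟩
  -- the track of the point
  let tr : I → ℂ := fun t => (Φ (x, t)).1.1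
  have htr : Continuous tr :=
    continuous_subtype_val.comp (continuous_fst.comp (Φ.continuous.comp (by fun_prop)))
  have htrF : ∀ t, tr t ∉ frontier U := by
    intro t ht
    exact e3 ⟨(x, t), ⟨ht, trivial⟩, rfl⟩
  have hclopen : IsClopen (tr ⁻¹' U) := by
    refine ⟨?_, hU.preimage htr⟩
    have : tr ⁻¹' U = tr ⁻¹' (closure U) := by
      ext t
      refine ⟨fun h => subset_closure h, fun h => ?_⟩
      by_contra h2
      exact htrF t ⟨h, by rwa [hU.interior_eq]⟩
    rw [this]
    exact isClosed_closure.preimage htr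
  have hends : tr 0 ∈ U ↔ tr 1 ∈ U := by
    rcases isClopen_iff.1 hclopen with h | h
    · have h0 : (0 : I) ∉ tr ⁻¹' U := by rw [h]; exact notMem_empty _
      have h1 : (1 : I) ∉ tr ⁻¹' U := by rw [h]; exact notMem_empty _
      exact ⟨fun h => absurd h h0, fun h => absurd h h1⟩
    · have h0 : (0 : I) ∈ tr ⁻¹' U := by rw [h]; trivial
      have h1 : (1 : I) ∈ tr ⁻¹' U := by rw [h]; trivial
      exact ⟨fun _ => h1, fun _ => h0⟩
  have t0 : tr 0 = z := by
    show (Φ (x, 0)).1.1 = z
    rw [hΦ2]
  have t1 : tr 1 = planeMap (BB g) z := by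
    show (Φ (x, 1)).1.1 = _
    rw [hΦ3]; rfl
  rw [t0, t1] at hends
  rw [← e1, hends, e2]

theorem fixes_of_isotopic {g : Supp} (hg : IsotopicToId (restr g)) {x : ℝ} (hx : x ∈ CC) :
    BB g x = x := by
  by_contra hne
  obtain ⟨M, hM⟩ : ∃ M : ℝ, ∀ z ∈ CP, ‖z‖ < M := by
    obtain ⟨M, hM⟩ := (XX.isCompact.isBounded).exists_norm_le
    exact ⟨M + 1, fun z hz => by linarith [hM z hz]⟩
  have hgx : BB g x ∈ CC := (BB_mem_CC g).2 hx
  obtain ⟨p, hp, hp1⟩ : ∃ p, p ∉ CC ∧ ((x < p ∧ p < BB g x) ∨ (BB g x < p ∧ p < x)) := by
    rcases lt_or_gt_of_ne hne with h | h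
    · obtain ⟨z, h1, h2, h3⟩ := exists_gap h hgx hx
      exact ⟨z, h3, Or.inr ⟨h1, h2⟩⟩
    · obtain ⟨z, h1, h2, h3⟩ := exists_gap h hx hgx
      exact ⟨z, h3, Or.inl ⟨h1, h2⟩⟩
  let A : Set ℂ := {z | z.re < p}
  let U : Set ℂ := A ∩ Metric.ball 0 M
  have hA : IsOpen A := isOpen_lt Complex.continuous_re continuous_const
  have hU : IsOpen U := hA.inter Metric.isOpen_ball
  have hFA : frontier A ⊆ {z | z.re = p} := by
    intro z hz
    have h1 : z ∈ closure A := hz.1
    have h2 : z ∉ interior A := hz.2
    rw [hA.interior_eq] at h2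
    have h3 : closure A ⊆ {z | z.re ≤ p} :=
      closure_minimal (fun z (hz : z.re < p) => show z.re ≤ p from hz.le)
        (isClosed_le Complex.continuous_re continuous_const)
    exact le_antisymm (h3 h1) (not_lt.1 h2)
  have hsub : frontier U ⊆ {z | z.re = p} ∪ Metric.sphere 0 M := by
    intro z hz
    rcases frontier_inter_subset A (Metric.ball 0 M) hz with h | h
    · exact Or.inl (hFA h.1)
    · exact Or.inr (Metric.frontier_ball_subset_sphere h.2)
  have hF : IsCompact (frontier U) := by
    refine (isCompact_closedBall (0 : ℂ) M).of_isClosed_subset isClosed_frontier ?_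
    intro z hz
    have h1 : z ∈ closure U := hz.1
    have h2 : closure U ⊆ Metric.closedBall 0 M :=
      closure_minimal (fun w hw => Metric.ball_subset_closedBall hw.2) Metric.isClosed_closedBall
    exact h2 h1
  have hFC : Disjoint (frontier U) CP := by
    rw [Set.disjoint_left]
    intro z hz hzC
    rcases hsub hz with h | h
    · have h' : z.re = p := h
      have := (mem_CP.1 hzC).1
      rw [h'] at this
      exact hp this
    · have h' : ‖z‖ = M := by simpa using h
      have := hM z hzC
      linarith
  have hc : (x : ℂ) ∈ CP := ⟨x, hx, rfl⟩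
  have hgc : ((BB g x : ℝ) : ℂ) ∈ CP := ⟨_, hgx, rfl⟩
  have key := mem_iff_of_isotopic hg hU hF hFC hc
  have e : planeMap (BB g) (x : ℂ) = ((BB g x : ℝ) : ℂ) := by
    rw [planeMap_apply]
    apply Complex.ext <;> simp
  rw [e] at key
  have m1 : (x : ℂ) ∈ U ↔ x < p := by
    constructor
    · intro h; exact h.1
    · intro h
      exact ⟨h, by simpa using hM _ hc⟩
  have m2 : ((BB g x : ℝ) : ℂ) ∈ U ↔ BB g x < p := by
    constructor
    · intro h; exact h.1
    · intro h
      exact ⟨h, by simpa using hM _ hgc⟩
  rw [m1, m2] at key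
  rcases hp1 with ⟨h1, h2⟩ | ⟨h1, h2⟩
  · linarith [key.1 h1]
  · linarith [key.2 h1]

theorem Theta_injective : Function.Injective Theta := by
  rw [injective_iff_map_eq_one]
  intro g hg
  refine BB_faithful fun x hx => ?_
  have h1 : (1 : HomeoPlus XX.Compl)⁻¹ * toHomeo g ∈ HomeoZero XX.Compl := by
    rw [← toMap_eq, map_one]
    exact hg.symm
  rw [inv_one, one_mul] at h1
  exact fixes_of_isotopic h1 hx

/-- The homomorphism from the wreath product to the mapping class group. -/
noncomputable def omega : WW →* Map XX.Compl where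
  toFun g := Theta ⟨E g, E_mem_Supp (WW_le g.2)⟩
  map_one' := by
    rw [← map_one Theta]
    congr 1
    apply Subtype.ext
    exact map_one E
  map_mul' := fun g h => by
    rw [← map_mul Theta]
    congr 1
    apply Subtype.ext
    exact map_mul E _ _

theorem omega_injective : Function.Injective omega := by
  intro g h hgh
  have h1 := Theta_injective hgh
  have h2 := congrArg Subtype.val h1
  exact Subtype.ext (E_injective h2)

theorem main : ∃ (C : PlaneCantorSet) (H : Subgroup (Map C.Compl)), Group.FG H ∧
    ¬ IsAmenable H ∧ Subsingleton (QTilde H) := by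
  refine ⟨XX, omega.range, ?_, ?_, ?_⟩
  · classical
    have : Group.FG WW := by
      rw [Group.fg_iff_subgroup_fg]
      exact ⟨{E aOA, E bOA, trans 2}, by simp [WW]⟩
    exact Group.fg_range omega
  · intro h
    let ρ : KK →* omega.range :=
      { toFun := fun k => ⟨omega ⟨E k, EK_le ⟨k, k.2, rfl⟩⟩, ⟨_, rfl⟩⟩
        map_one' := by
          apply Subtype.ext
          show omega _ = 1
          rw [← map_one omega]
          congr 1
          apply Subtype.ext
          exact map_one E
        map_mul' := fun k l => by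
          apply Subtype.ext
          show omega _ = omega _ * omega _
          rw [← map_mul omega]
          congr 1
          apply Subtype.ext
          exact map_mul E _ _ }
    refine KK_not_amenable (amenable_of_injective ρ ?_ h)
    intro k l hkl
    have h1 := congrArg Subtype.val hkl
    have h2 := omega_injective h1
    have h3 := congrArg Subtype.val h2
    exact Subtype.ext (E_injective h3)
  · exact subsingleton_QTilde
      (hom_of_surjective omega.rangeRestrict omega.rangeRestrict_surjective WW_hom)

end Pool.Agent.N513.QM
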