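import Pool.Agent.H659R3.BigMCG.Defs

/-! The plane minus a Cantor set as an oriented surface. -/

set_option autoImplicit false

open Topology

namespace Pool.Agent.N513.QM

open Pool.Agent.H659R3.BigMCG

/-- A Cantor set in the plane: a nonempty compact set without isolated points which is totally
disconnected. Its complement is connected (this holds for every Cantor set in the plane). -/
structure PlaneCantorSet : Type where
  /-- the set -/
  carrier : Set ℂ
  nonempty : carrier.Nonempty
  isCompact : IsCompact carrier
  preperfect : Preperfect carrier
  totallyDisconnected : IsTotallyDisconnected carrier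
  connected_compl : IsConnected carrierᶜ

/-- The plane minus the Cantor set. -/
def PlaneCantorSet.Compl (C : PlaneCantorSet) : Type := {z : ℂ // z ∉ C.carrier}

instance (C : PlaneCantorSet) : TopologicalSpace C.Compl :=
  inferInstanceAs (TopologicalSpace {z : ℂ // z ∉ C.carrier})

namespace PlaneCantorSet

variable (C : PlaneCantorSet)

/-- The inclusion of the plane minus the Cantor set in the plane. -/
def incl (x : C.Compl) : ℂ := x.1

theorem isOpen_compl : IsOpen {z : ℂ | z ∉ C.carrier} := C.isCompact.isClosed.isOpen_compl

theorem isOpenEmbedding_incl : IsOpenEmbedding C.incl :=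
  C.isOpen_compl.isOpenEmbedding_subtypeVal

instance : Nonempty C.Compl := by
  obtain ⟨z, hz⟩ := C.connected_compl.nonempty
  exact ⟨⟨z, hz⟩⟩

instance : T2Space C.Compl := inferInstanceAs (T2Space {z : ℂ // z ∉ C.carrier})

instance : SecondCountableTopology C.Compl :=
  inferInstanceAs (SecondCountableTopology {z : ℂ // z ∉ C.carrier})

instance : ConnectedSpace C.Compl :=
  isConnected_iff_connectedSpace.1 C.connected_compl

/-- The chart given by the inclusion in the plane. -/
noncomputable def chart : OpenPartialHomeomorph C.Compl ℂ :=
  C.isOpenEmbedding_incl.toOpenPartialHomeomorph C.incl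

theorem chart_apply (x : C.Compl) : C.chart x = x.1 := rfl

theorem chart_symm {w : ℂ} (hw : w ∈ C.chart.target) : (C.chart.symm w).1 = w :=
  C.chart.right_inv hw

theorem chart_source : C.chart.source = Set.univ := rfl

/-- The plane minus the Cantor set with the orientation of the plane. -/
noncomputable instance : OrientedSurface C.Compl where
  t2 := inferInstance
  secondCountable := inferInstance
  connected := inferInstance
  charts := {C.chart}
  cover := fun x => ⟨C.chart, rfl, trivial⟩
  oriented := by
    rintro _ rfl _ rfl x hx hx'
    have h := orientPresAt_add_const 0 (C.chart x)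
    refine h.congr ?_
    filter_upwards [C.chart.open_target.mem_nhds (C.chart.map_source hx)] with w hw
    rw [add_zero]
    exact C.chart.right_inv hw

end PlaneCantorSet

end Pool.Agent.N513.QM
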