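import Pool.Agent.N513.QM.Defs

/-! Homogeneous quasimorphisms on groups generated by a subgroup `K` and an element `σ` such that
`K` commutes with all its conjugates by nontrivial powers of `σ` are homomorphisms. -/

set_option autoImplicit false

namespace Pool.Agent.N513.QM

theorem eq_zero_of_bdd {x M : ℝ} (h : ∀ n : ℕ, n * |x| ≤ M) : x = 0 := by
  by_contra hx
  have hx' : 0 < |x| := abs_pos.2 hx
  obtain ⟨n, hn⟩ := exists_nat_gt (M / |x|)
  have := h n
  rw [div_lt_iff₀ hx'] at hn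
  linarith

variable {G : Type} [Group G]

theorem IsHomogeneousQuasimorphism.map_inv {f : G → ℝ} (hf : IsHomogeneousQuasimorphism f)
    (g : G) : f g⁻¹ = - f g := by
  have := hf.2 g (-1)
  simpa using this

theorem IsHomogeneousQuasimorphism.map_one {f : G → ℝ} (hf : IsHomogeneousQuasimorphism f) :
    f 1 = 0 := by
  have := hf.2 1 0
  simpa using this

theorem IsHomogeneousQuasimorphism.map_pow {f : G → ℝ} (hf : IsHomogeneousQuasimorphism f)
    (g : G) (n : ℕ) : f (g ^ n) = n * f g := by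
  have := hf.2 g n
  simpa using this

theorem IsHomogeneousQuasimorphism.conj {f : G → ℝ} (hf : IsHomogeneousQuasimorphism f)
    (g h : G) : f (g * h * g⁻¹) = f h := by
  obtain ⟨D, hD⟩ := hf.1
  have key : ∀ n : ℕ, n * |f (g * h * g⁻¹) - f h| ≤ D + D := by
    intro n
    have h1 : f (g * h ^ n * g⁻¹) = n * f (g * h * g⁻¹) := by
      rw [← hf.map_pow, conj_pow]
    have h2 := hD (g * h ^ n) g⁻¹
    have h3 := hD g (h ^ n)
    rw [hf.map_inv, h1] at h2
    rw [hf.map_pow] at h3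
    have e : (n : ℝ) * |f (g * h * g⁻¹) - f h| = |(n : ℝ) * (f (g * h * g⁻¹) - f h)| := by
      rw [abs_mul, Nat.abs_cast]
    rw [e]
    have e2 : (n : ℝ) * (f (g * h * g⁻¹) - f h) =
        (n * f (g * h * g⁻¹) - f (g * h ^ n) - -f g) + (f (g * h ^ n) - f g - n * f h) := by ring
    rw [e2]
    exact (abs_add_le _ _).trans (add_le_add h2 h3)
  have := eq_zero_of_bdd key
  linarith

theorem IsHomogeneousQuasimorphism.commute {f : G → ℝ} (hf : IsHomogeneousQuasimorphism f)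
    {g h : G} (hc : Commute g h) : f (g * h) = f g + f h := by
  obtain ⟨D, hD⟩ := hf.1
  have key : ∀ n : ℕ, n * |f (g * h) - f g - f h| ≤ D := by
    intro n
    have h1 : f (g ^ n * h ^ n) = n * f (g * h) := by
      rw [← hf.map_pow, hc.mul_pow]
    have h2 := hD (g ^ n) (h ^ n)
    rw [h1, hf.map_pow, hf.map_pow] at h2
    have e : (n : ℝ) * |f (g * h) - f g - f h| = |(n : ℝ) * (f (g * h) - f g - f h)| := by
      rw [abs_mul, Nat.abs_cast]
    rw [e]
    have e2 : (n : ℝ) * (f (g * h) - f g - f h) = n * f (g * h) - n * f g - n * f h := by ring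
    rw [e2]; exact h2
  have := eq_zero_of_bdd key
  linarith

/-- The product of the first `N` conjugates of `b` by the powers of `σ`. -/
def diag (σ b : G) : ℕ → G
  | 0 => 1
  | N + 1 => diag σ b N * (σ ^ N * b * (σ ^ N)⁻¹)

theorem diag_succ (σ b : G) (N : ℕ) :
    diag σ b (N + 1) = diag σ b N * (σ ^ N * b * (σ ^ N)⁻¹) := rfl

theorem commute_conj {σ b b' : G} (h : ∀ n : ℕ, 0 < n → Commute b (σ ^ n * b' * (σ ^ n)⁻¹))
    {i M : ℕ} (hi : i < M) : Commute (σ ^ i * b * (σ ^ i)⁻¹) (σ ^ M * b' * (σ ^ M)⁻¹) := by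
  have h1 := h (M - i) (by omega)
  have h2 : σ ^ M = σ ^ i * σ ^ (M - i) := by rw [← pow_add]; congr 1; omega
  have h3 : σ ^ M * b' * (σ ^ M)⁻¹ =
      σ ^ i * (σ ^ (M - i) * b' * (σ ^ (M - i))⁻¹) * (σ ^ i)⁻¹ := by
    rw [h2]; group
  rw [h3]
  unfold Commute SemiconjBy at *
  calc σ ^ i * b * (σ ^ i)⁻¹ * (σ ^ i * (σ ^ (M - i) * b' * (σ ^ (M - i))⁻¹) * (σ ^ i)⁻¹)
      = σ ^ i * (b * (σ ^ (M - i) * b' * (σ ^ (M - i))⁻¹)) * (σ ^ i)⁻¹ := by group
    _ = σ ^ i * ((σ ^ (M - i) * b' * (σ ^ (M - i))⁻¹) * b) * (σ ^ i)⁻¹ := by rw [h1]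
    _ = _ := by group

theorem commute_diag {σ b b' : G} (h : ∀ n : ℕ, 0 < n → Commute b (σ ^ n * b' * (σ ^ n)⁻¹))
    {N M : ℕ} (hN : N ≤ M) : Commute (diag σ b N) (σ ^ M * b' * (σ ^ M)⁻¹) := by
  induction N with
  | zero => exact Commute.one_left _
  | succ N ih =>
    rw [diag_succ]
    exact (ih (by omega)).mul_left (commute_conj h (by omega))

theorem diag_mul {σ b b' : G} (h : ∀ n : ℕ, 0 < n → Commute b' (σ ^ n * b * (σ ^ n)⁻¹)) (N : ℕ) :
    diag σ (b * b') N = diag σ b N * diag σ b' N := by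
  induction N with
  | zero => simp [diag]
  | succ N ih =>
    rw [diag_succ, diag_succ, diag_succ, ih]
    have h1 := (commute_diag h (le_refl N))
    unfold Commute SemiconjBy at h1
    calc diag σ b N * diag σ b' N * (σ ^ N * (b * b') * (σ ^ N)⁻¹)
        = diag σ b N * (diag σ b' N * (σ ^ N * b * (σ ^ N)⁻¹)) * (σ ^ N * b' * (σ ^ N)⁻¹) := by
          group
      _ = diag σ b N * ((σ ^ N * b * (σ ^ N)⁻¹) * diag σ b' N) * (σ ^ N * b' * (σ ^ N)⁻¹) := by
          rw [h1]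
      _ = _ := by group

theorem map_diag {f : G → ℝ} (hf : IsHomogeneousQuasimorphism f) {σ b : G}
    (h : ∀ n : ℕ, 0 < n → Commute b (σ ^ n * b * (σ ^ n)⁻¹)) (N : ℕ) :
    f (diag σ b N) = N * f b := by
  induction N with
  | zero => simp [diag, hf.map_one]
  | succ N ih =>
    rw [diag_succ, hf.commute (commute_diag h (le_refl N)), ih, hf.conj]
    push_cast; ring

/-- The trick of commuting conjugates. -/
theorem additive_of_displaced {f : G → ℝ} (hf : IsHomogeneousQuasimorphism f) {σ b b' : G}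
    {B : Subgroup G} (hB : ∀ x ∈ B, ∀ y ∈ B, ∀ n : ℕ, 0 < n → Commute x (σ ^ n * y * (σ ^ n)⁻¹))
    (hb : b ∈ B) (hb' : b' ∈ B) : f (b * b') = f b + f b' := by
  obtain ⟨D, hD⟩ := hf.1
  have key : ∀ n : ℕ, n * |f (b * b') - f b - f b'| ≤ D := by
    intro n
    have h1 := hD (diag σ b n) (diag σ b' n)
    rw [← diag_mul (hB b' hb' b hb), map_diag hf (hB _ (B.mul_mem hb hb') _ (B.mul_mem hb hb')),
      map_diag hf (hB b hb b hb), map_diag hf (hB b' hb' b' hb')] at h1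
    have e : (n : ℝ) * |f (b * b') - f b - f b'| = |(n : ℝ) * (f (b * b') - f b - f b')| := by
      rw [abs_mul, Nat.abs_cast]
    rw [e]
    have e2 : (n : ℝ) * (f (b * b') - f b - f b') = n * f (b * b') - n * f b - n * f b' := by ring
    rw [e2]; exact h1
  have := eq_zero_of_bdd key
  linarith

section

variable (K : Subgroup G) (σ : G)

/-- The subgroup generated by the conjugates of `K` by `σ ^ i`, `|i| ≤ n`. -/
def Bn (n : ℕ) : Subgroup G :=
  Subgroup.closure {x | ∃ i : ℤ, |i| ≤ n ∧ ∃ k ∈ K, x = σ ^ i * k * (σ ^ i)⁻¹}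

variable {K σ}

theorem Bn_mono {m n : ℕ} (h : m ≤ n) : Bn K σ m ≤ Bn K σ n := by
  refine Subgroup.closure_mono ?_
  rintro x ⟨i, hi, k, hk, rfl⟩
  exact ⟨i, hi.trans (by exact_mod_cast h), k, hk, rfl⟩

theorem Bn_conj {n : ℕ} {b : G} (hb : b ∈ Bn K σ n) (j : ℤ) :
    σ ^ j * b * (σ ^ j)⁻¹ ∈ Bn K σ (n + j.natAbs) := by
  induction hb using Subgroup.closure_induction with
  | mem x hx =>
    obtain ⟨i, hi, k, hk, rfl⟩ := hx
    refine Subgroup.subset_closure ⟨j + i, ?_, k, hk, by rw [zpow_add]; group⟩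
    have := abs_add_le j i
    push_cast
    linarith
  | one => simp
  | mul x y _ _ hx hy =>
    have : σ ^ j * (x * y) * (σ ^ j)⁻¹ = (σ ^ j * x * (σ ^ j)⁻¹) * (σ ^ j * y * (σ ^ j)⁻¹) := by
      group
    rw [this]; exact Subgroup.mul_mem _ hx hy
  | inv x _ hx =>
    have : σ ^ j * x⁻¹ * (σ ^ j)⁻¹ = (σ ^ j * x * (σ ^ j)⁻¹)⁻¹ := by group
    rw [this]; exact Subgroup.inv_mem _ hx

theorem commute_of_closure {s : Set G} {y : G} (h : ∀ x ∈ s, Commute x y) {x : G}
    (hx : x ∈ Subgroup.closure s) : Commute x y := by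
  induction hx using Subgroup.closure_induction with
  | mem x hx => exact h x hx
  | one => exact Commute.one_left _
  | mul x z _ _ hx hz => exact hx.mul_left hz
  | inv x _ hx => exact hx.inv_left

variable (hK : ∀ n : ℤ, n ≠ 0 → ∀ k ∈ K, ∀ k' ∈ K, Commute k (σ ^ n * k' * (σ ^ n)⁻¹))

include hK in
theorem commute_gen {i j : ℤ} (hij : i ≠ j) {k k' : G} (hk : k ∈ K) (hk' : k' ∈ K) :
    Commute (σ ^ i * k * (σ ^ i)⁻¹) (σ ^ j * k' * (σ ^ j)⁻¹) := by
  have h1 := hK (j - i) (sub_ne_zero.2 hij.symm) k hk k' hk'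
  have h2 : σ ^ j = σ ^ i * σ ^ (j - i) := by rw [← zpow_add]; congr 1; omega
  unfold Commute SemiconjBy at *
  rw [h2]
  calc σ ^ i * k * (σ ^ i)⁻¹ * (σ ^ i * σ ^ (j - i) * k' * (σ ^ i * σ ^ (j - i))⁻¹)
      = σ ^ i * (k * (σ ^ (j - i) * k' * (σ ^ (j - i))⁻¹)) * (σ ^ i)⁻¹ := by group
    _ = σ ^ i * ((σ ^ (j - i) * k' * (σ ^ (j - i))⁻¹) * k) * (σ ^ i)⁻¹ := by rw [h1]
    _ = _ := by group

include hK in
theorem commute_Bn {n : ℕ} {m : ℤ} (hm : 2 * n < m) {b b' : G} (hb : b ∈ Bn K σ n)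
    (hb' : b' ∈ Bn K σ n) : Commute b (σ ^ m * b' * (σ ^ m)⁻¹) := by
  refine commute_of_closure ?_ hb
  rintro _ ⟨i, hi, k, hk, rfl⟩
  -- induct on the second variable
  induction hb' using Subgroup.closure_induction with
  | mem x hx =>
    obtain ⟨j, hj, k', hk', rfl⟩ := hx
    have e : σ ^ m * (σ ^ j * k' * (σ ^ j)⁻¹) * (σ ^ m)⁻¹ =
        σ ^ (m + j) * k' * (σ ^ (m + j))⁻¹ := by rw [zpow_add]; group
    rw [e]
    refine commute_gen hK ?_ hk hk'
    rw [abs_le] at hi hj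
    omega
  | one => simp
  | mul x y _ _ hx hy =>
    have : σ ^ m * (x * y) * (σ ^ m)⁻¹ = (σ ^ m * x * (σ ^ m)⁻¹) * (σ ^ m * y * (σ ^ m)⁻¹) := by
      group
    rw [this]; exact hx.mul_right hy
  | inv x _ hx =>
    have : σ ^ m * x⁻¹ * (σ ^ m)⁻¹ = (σ ^ m * x * (σ ^ m)⁻¹)⁻¹ := by group
    rw [this]; exact hx.inv_right

include hK in
theorem additive_Bn {f : G → ℝ} (hf : IsHomogeneousQuasimorphism f) {n : ℕ} {b b' : G}
    (hb : b ∈ Bn K σ n) (hb' : b' ∈ Bn K σ n) : f (b * b') = f b + f b' := by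
  refine additive_of_displaced hf (σ := σ ^ (2 * n + 1)) (B := Bn K σ n) ?_ hb hb'
  intro x hx y hy t ht
  have h := commute_Bn hK (m := ((2 * n + 1) * t : ℕ)) ?_ hx hy
  · rw [zpow_natCast, pow_mul] at h
    exact h
  · have : (2 * n + 1) * 1 ≤ (2 * n + 1) * t := Nat.mul_le_mul_left _ ht
    push_cast
    have h2 : ((2 * n + 1 : ℕ) : ℤ) * 1 ≤ ((2 * n + 1 : ℕ) : ℤ) * t := by exact_mod_cast this
    push_cast at h2
    linarith

theorem exists_normal_form (hgen : Subgroup.closure ((K : Set G) ∪ {σ}) = ⊤) (g : G) :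
    ∃ (n : ℕ) (b : G) (m : ℤ), b ∈ Bn K σ n ∧ g = b * σ ^ m := by
  have hg : g ∈ Subgroup.closure ((K : Set G) ∪ {σ}) := by rw [hgen]; trivial
  induction hg using Subgroup.closure_induction with
  | mem x hx =>
    rcases hx with hx | hx
    · exact ⟨0, x, 0, Subgroup.subset_closure ⟨0, by simp, x, hx, by simp⟩, by simp⟩
    · rw [Set.mem_singleton_iff] at hx
      exact ⟨0, 1, 1, Subgroup.one_mem _, by simp [hx]⟩
  | one => exact ⟨0, 1, 0, Subgroup.one_mem _, by simp⟩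
  | mul x y _ _ hx hy =>
    obtain ⟨n, b, m, hb, rfl⟩ := hx
    obtain ⟨n', b', m', hb', rfl⟩ := hy
    refine ⟨max n (n' + m.natAbs), b * (σ ^ m * b' * (σ ^ m)⁻¹), m + m', ?_, ?_⟩
    · exact Subgroup.mul_mem _ (Bn_mono (le_max_left _ _) hb)
        (Bn_mono (le_max_right _ _) (Bn_conj hb' m))
    · rw [zpow_add]; group
  | inv x _ hx =>
    obtain ⟨n, b, m, hb, rfl⟩ := hx
    refine ⟨n + (-m).natAbs, σ ^ (-m) * b⁻¹ * (σ ^ (-m))⁻¹, -m, ?_, ?_⟩
    · exact Bn_conj (Subgroup.inv_mem _ hb) (-m)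
    · group

include hK in
theorem map_normal_form {f : G → ℝ} (hf : IsHomogeneousQuasimorphism f) {n : ℕ} {b : G}
    (hb : b ∈ Bn K σ n) (m : ℤ) : f (b * σ ^ m) = f b + m * f σ := by
  obtain ⟨D, hD⟩ := hf.1
  -- the products of conjugates
  have h1 : ∀ N : ℕ, (b * σ ^ m) ^ N = diag (σ ^ m) b N * σ ^ (m * N) := by
    intro N
    induction N with
    | zero => simp [diag]
    | succ N ih =>
      rw [pow_succ, ih, diag_succ]
      have e : (σ ^ m) ^ N = σ ^ (m * N) := by rw [zpow_mul, zpow_natCast]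
      have e2 : σ ^ (m * ((N + 1 : ℕ) : ℤ)) = σ ^ (m * N) * σ ^ m := by
        rw [← zpow_add]; congr 1; push_cast; ring
      rw [e, e2]; group
  have h2 : ∀ N : ℕ, diag (σ ^ m) b N ∈ Bn K σ (n + m.natAbs * N) ∧
      f (diag (σ ^ m) b N) = N * f b := by
    intro N
    induction N with
    | zero => exact ⟨by simp [diag], by simp [diag, hf.map_one]⟩
    | succ N ih =>
      have e : (σ ^ m) ^ N = σ ^ (m * N) := by rw [zpow_mul, zpow_natCast]
      have h3 : (σ ^ m) ^ N * b * ((σ ^ m) ^ N)⁻¹ ∈ Bn K σ (n + m.natAbs * N) := by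
        rw [e]
        have := Bn_conj hb (m * N)
        rwa [Int.natAbs_mul, Int.natAbs_natCast] at this
      refine ⟨?_, ?_⟩
      · rw [diag_succ]
        exact Bn_mono (by rw [mul_add]; omega) (Subgroup.mul_mem _ ih.1 h3)
      · rw [diag_succ, additive_Bn hK hf ih.1 h3, ih.2, hf.conj]
        push_cast; ring
  have key : ∀ N : ℕ, N * |f (b * σ ^ m) - f b - m * f σ| ≤ D := by
    intro N
    have h3 := hD (diag (σ ^ m) b N) (σ ^ (m * N))
    rw [← h1, hf.map_pow, (h2 N).2, hf.2] at h3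
    have e : (N : ℝ) * |f (b * σ ^ m) - f b - m * f σ| =
        |(N : ℝ) * (f (b * σ ^ m) - f b - m * f σ)| := by
      rw [abs_mul, Nat.abs_cast]
    rw [e]
    have e2 : (N : ℝ) * (f (b * σ ^ m) - f b - m * f σ) =
        N * f (b * σ ^ m) - N * f b - ((m * N : ℤ) : ℝ) * f σ := by push_cast; ring
    rw [e2]; exact h3
  have := eq_zero_of_bdd key
  linarith

include hK in
/-- If `G` is generated by `K` and `σ` and `K` commutes with its conjugates by all nontrivial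
powers of `σ` then homogeneous quasimorphisms on `G` are homomorphisms. -/
theorem hom_of_wreath (hgen : Subgroup.closure ((K : Set G) ∪ {σ}) = ⊤) {f : G → ℝ}
    (hf : IsHomogeneousQuasimorphism f) (g h : G) : f (g * h) = f g + f h := by
  obtain ⟨n, b, m, hb, rfl⟩ := exists_normal_form hgen g
  obtain ⟨n', b', m', hb', rfl⟩ := exists_normal_form hgen h
  have e : b * σ ^ m * (b' * σ ^ m') = (b * (σ ^ m * b' * (σ ^ m)⁻¹)) * σ ^ (m + m') := by
    rw [zpow_add]; group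
  have h1 : b ∈ Bn K σ (max n (n' + m.natAbs)) := Bn_mono (le_max_left _ _) hb
  have h2 : σ ^ m * b' * (σ ^ m)⁻¹ ∈ Bn K σ (max n (n' + m.natAbs)) :=
    Bn_mono (le_max_right _ _) (Bn_conj hb' m)
  rw [e, map_normal_form hK hf (Subgroup.mul_mem _ h1 h2), additive_Bn hK hf h1 h2, hf.conj,
    map_normal_form hK hf hb, map_normal_form hK hf hb']
  push_cast; ring

end

/-- If all homogeneous quasimorphisms are homomorphisms then the quotient is trivial. -/
theorem subsingleton_QTilde (h : ∀ f : G → ℝ, IsHomogeneousQuasimorphism f →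
    ∀ a b : G, f (a * b) = f a + f b) : Subsingleton (QTilde G) := by
  rw [Submodule.Quotient.subsingleton_iff, eq_top_iff]
  rintro ⟨f, hf⟩ -
  exact h f hf

/-- The property passes to images. -/
theorem hom_of_surjective {G' : Type} [Group G'] (π : G →* G') (hπ : Function.Surjective π)
    (h : ∀ f : G → ℝ, IsHomogeneousQuasimorphism f → ∀ a b : G, f (a * b) = f a + f b)
    (f : G' → ℝ) (hf : IsHomogeneousQuasimorphism f) (a b : G') : f (a * b) = f a + f b := by
  obtain ⟨a, rfl⟩ := hπ a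
  obtain ⟨b, rfl⟩ := hπ b
  have := h (fun x => f (π x)) ⟨?_, ?_⟩ a b
  · simpa using this
  · obtain ⟨D, hD⟩ := hf.1
    exact ⟨D, fun g h => by simpa using hD (π g) (π h)⟩
  · intro g n
    simpa using hf.2 (π g) n

end Pool.Agent.N513.QM
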